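import Pool.Agent.K7.H53.DB.Defs
import Pool.Agent.K7.H53.MA.Defs
import Pool.Agent.Y60.DC.ClsU2

/-!
# The epimorphisms and groups of the theorem on double covers
-/

set_option autoImplicit false

open Pool.Agent.Y60.DC (IsAutPower)
open Pool.Agent.TH444.TW (IsInnerPower)

namespace Pool.Agent.K7.H53.DB

/-- `T` is a double cover of `A_n`: a finite perfect group with a central subgroup of order two whose
quotient is `A_n`. -/
def IsDoubleCover (n : ℕ) (T : Type) [Group T] : Prop :=
  Finite T ∧ commutator T = ⊤ ∧ ∃ f : T →* alternatingGroup (Fin n), Function.Surjective f ∧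
    Nat.card f.ker = 2 ∧ f.ker ≤ Subgroup.center T

/-- The epimorphisms `π : W' → W` which are allowed: those of the theorem on alternating composition
factors (`Step p π`), the projections `T^k ⋊ W → W`, where `T` is the double cover of `A_n`, `n ≥ 5`,
`n ≠ 6`, and `W` acts through a homomorphism `W → Aut(T) ≀ S_k`, and the projections
`T^k ⋊ W → W`, where `T` is the double cover of `A_6` and `W` acts through a homomorphism
`W → T ≀ S_k` (through inner automorphisms of `T` and permutations of the factors). -/
def StepD (p : ℕ) [Fact p.Prime] {W W' : Type} [Group W] [Group W'] (π : W' →* W) : Prop :=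
  Pool.Agent.K7.H53.MA.Step p π ∨
    (∃ n : ℕ, 5 ≤ n ∧ n ≠ 6 ∧ IsAutPower (TA n (ZMod p)) π) ∨
    IsInnerPower (TA 6 (ZMod p)) π

/-- The groups which are obtained from the trivial group by such epimorphisms and by quotients. -/
inductive Built (p : ℕ) [Fact p.Prime] : ∀ (G : Type) [Group G], Prop
  /-- the trivial group -/
  | one (G : Type) [Group G] (h : Subsingleton G) : Built p G
  /-- one more step -/
  | step {G G' : Type} [Group G] [Group G'] (π : G' →* G) (h : StepD p π) (hG : Built p G) :
      Built p G'
  /-- quotients -/
  | quot {G G' : Type} [Group G] [Group G'] (q : G' →* G) (hq : Function.Surjective q)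
      (hG : Built p G') : Built p G

end Pool.Agent.K7.H53.DB
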