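import Pool.Agent.K7.H53.DB.Act
import Pool.Agent.Y60.DC.Frame

/-!
# The criterion for split embedding problems with kernel the double cover
-/

set_option autoImplicit false
set_option linter.unusedSectionVars false
set_option linter.unusedVariables false

open Finset Equiv

namespace Pool.Agent.K7.H53.DB

open Pool.Agent.H391R2.T4 (RegSol)
open Pool.Agent.Y60.DC (frame)

section gen

variable {I F : Type} [Fintype I] [DecidableEq I] [Field F]

theorem cmap_lift {E : Type} [Field E] (f : F →+* E) {w : CC I F} {π : Perm I}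
    (h : IsLift w π) : IsLift (cmap f w) π := by
  intro i
  have h1 := congrArg (cmap f) (h i)
  rw [map_mul, map_mul, cmap_e, cmap_e] at h1
  exact h1

/-- The change of the intertwining element. -/
theorem u_change (h2 : (2 : F) ≠ 0) (hev : Even (Fintype.card I)) {A : Matrix I I F}
    (σ : F →+* F) {u b w : (CC I F)ˣ} (hu : ∀ j, fA A j * (u : CC I F) = (u : CC I F) * e j)
    (hu1 : tr (u : CC I F) * (u : CC I F) = 1) {s t : Perm I} (hb : IsLift (b : CC I F) s)
    (hw : IsLift (w : CC I F) t) {c : F} (hc : c ≠ 0)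
    (hbn : tr (b : CC I F) * (b : CC I F) = c • (1 : CC I F))
    (hwn : tr (w : CC I F) * (w : CC I F) = c • (1 : CC I F))
    (hA : ∀ i j, σ (A i j) = A (s i) (t j)) :
    Units.map (cmap σ : CC I F →+* CC I F).toMonoidHom u = b⁻¹ * u * w ∨
    Units.map (cmap σ : CC I F →+* CC I F).toMonoidHom u = -(b⁻¹ * u * w) := by
  let v : (CC I F)ˣ := b⁻¹ * u * w
  let su : (CC I F)ˣ := Units.map (cmap σ : CC I F →+* CC I F).toMonoidHom u
  have hsu : (su : CC I F) = cmap σ (u : CC I F) := rfl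
  let f : I → CC I F := fun j => cmap σ (fA A j)
  have hbe : ∀ i, (↑b⁻¹ : CC I F) * e i * (b : CC I F) = e (s⁻¹ i) := by
    intro i
    have h1 := hb.inv i
    rw [h1, mul_assoc, Units.inv_mul, mul_one]
  have hf : ∀ j, f j = (↑b⁻¹ : CC I F) * fA A (t j) * (b : CC I F) := by
    intro j
    change cmap σ (∑ i, A i j • e i) = (↑b⁻¹ : CC I F) * (∑ i, A i (t j) • e i) * (b : CC I F)
    rw [map_sum, Finset.mul_sum, Finset.sum_mul]
    have h1 : ∀ i, (↑b⁻¹ : CC I F) * (A i (t j) • e i) * (b : CC I F) =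
        A i (t j) • e (s⁻¹ i) := by
      intro i
      rw [mul_smul_comm, smul_mul_assoc, hbe]
    rw [sum_congr rfl fun i _ => h1 i,
      ← Equiv.sum_comp s fun i => A i (t j) • (e (s⁻¹ i) : CC I F)]
    refine sum_congr rfl fun i _ => ?_
    have h5 : s⁻¹ (s i) = i := s.symm_apply_apply i
    rw [cmap_smul, cmap_e, hA, h5]
  have h3 : ∀ j, f j * (su : CC I F) = (su : CC I F) * e j := by
    intro j
    have h1 := congrArg (cmap σ) (hu j)
    rw [map_mul, map_mul, cmap_e] at h1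
    exact h1
  have h4 : ∀ j, f j * (v : CC I F) = (v : CC I F) * e j := by
    intro j
    change f j * ((↑b⁻¹ : CC I F) * (u : CC I F) * (w : CC I F)) =
      (↑b⁻¹ : CC I F) * (u : CC I F) * (w : CC I F) * e j
    calc f j * ((↑b⁻¹ : CC I F) * (u : CC I F) * (w : CC I F)) =
        (↑b⁻¹ : CC I F) * (fA A (t j) * (((b : CC I F) * (↑b⁻¹ : CC I F)) * (u : CC I F))) *
          (w : CC I F) := by
          rw [hf]
          simp only [mul_assoc]
      _ = (↑b⁻¹ : CC I F) * ((u : CC I F) * e (t j)) * (w : CC I F) := by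
          rw [Units.mul_inv, one_mul, hu]
      _ = (↑b⁻¹ : CC I F) * (u : CC I F) * (e (t j) * (w : CC I F)) := by
          simp only [mul_assoc]
      _ = _ := by rw [← hw j, ← mul_assoc]
  obtain ⟨d, hd, h5⟩ := int_unique h2 hev f v su h4 h3
  have h6 : tr (su : CC I F) * (su : CC I F) = 1 := by
    rw [hsu, ← cmap_tr, ← map_mul, hu1, map_one]
  have h7 : tr (v : CC I F) * (v : CC I F) = 1 := by
    change tr ((↑b⁻¹ : CC I F) * (u : CC I F) * (w : CC I F)) *
      ((↑b⁻¹ : CC I F) * (u : CC I F) * (w : CC I F)) = 1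
    rw [tr_mul, tr_mul]
    calc tr (w : CC I F) * (tr (u : CC I F) * tr (↑b⁻¹ : CC I F)) *
          ((↑b⁻¹ : CC I F) * (u : CC I F) * (w : CC I F)) =
        tr (w : CC I F) * (tr (u : CC I F) * (tr (↑b⁻¹ : CC I F) * (↑b⁻¹ : CC I F)) *
          (u : CC I F)) * (w : CC I F) := by simp only [mul_assoc]
      _ = 1 := by
        rw [tr_inv hc hbn, mul_smul_comm, mul_one, smul_mul_assoc, hu1, mul_smul_comm, mul_one,
          smul_mul_assoc, hwn, smul_smul, inv_mul_cancel₀ hc, one_smul]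
  rw [h5, tr_smul, smul_mul_smul_comm, h7] at h6
  have h8 : d * d = 1 := smul_one_inj (by rw [h6, one_smul])
  rcases mul_self_eq_one_iff.1 h8 with h | h
  · left
    apply Units.ext
    change (su : CC I F) = (v : CC I F)
    rw [h5, h, one_smul]
  · right
    apply Units.ext
    change (su : CC I F) = ((-v : (CC I F)ˣ) : CC I F)
    rw [h5, h, neg_smul, one_smul, Units.val_neg]

end gen

/-- **The criterion.** -/
theorem frame_db (p : ℕ) [Fact p.Prime] (hp : (2 : ZMod p) ≠ 0) (K L : Type) [Field K]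
    [Infinite K] [Field L] [Algebra K L]
    [FiniteDimensional K L] [IsGalois K L] (n : ℕ) (h5 : 5 ≤ n)
    (β' : (L ≃ₐ[K] L) →* Perm (Fin n))
    (U : Type) [Field U] [IsAlgClosed U] [Algebra K U] [Algebra L U] [IsScalarTower K L U]
    [CharP U p]
    (ι : Type) [Finite ι] (x : ι → U) (hx : IsTranscendenceBasis K x)
    (A : Matrix (II n) (II n) U) (hA : A.transpose * A = 1)
    (h1 : ∀ (σ : U ≃ₐ[K] U) (γ : L ≃ₐ[K] L),
      (∀ l, σ (algebraMap L U l) = algebraMap L U (γ l)) → (∀ i, σ (x i) = x i) →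
      ∃ s : Perm (Fin n), Perm.sign s = Perm.sign (β' γ) ∧
        ∀ i j, σ (A i j) = A (ph n s i) (ph n (β' γ) j))
    (h2 : ∀ s ∈ alternatingGroup (Fin n), ∃ σ : U ≃ₐ[K] U, (∀ z, IsAlgebraic K z → σ z = z) ∧
      (∀ i, σ (x i) = x i) ∧ ∀ i j, σ (A i j) = A (ph n s i) j) :
    RegSol K L (TA n (ZMod p) ⋊[(pact n hp).comp β'] (L ≃ₐ[K] L))
      SemidirectProduct.rightHom := by
  classical
  let G := TA n (ZMod p) ⋊[(pact n hp).comp β'] (L ≃ₐ[K] L)
  have hfinT : Finite (TA n (ZMod p)) := finite_TA n hp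
  have hfinG : Finite G := Finite.of_equiv _ SemidirectProduct.equivProd.symm
  let j : ZMod p →+* U := ZMod.castHom (dvd_refl p) U
  have h2U : (2 : U) ≠ 0 := by
    intro h
    apply hp
    apply j.injective
    rw [map_zero, ← h, map_ofNat]
  let Jm : (CC (II n) (ZMod p))ˣ →* (CC (II n) U)ˣ :=
    Units.map (cmap j : CC (II n) (ZMod p) →+* CC (II n) U).toMonoidHom
  have hJval : ∀ w, (Jm w : CC (II n) U) = cmap j (w : CC (II n) (ZMod p)) := fun w => rfl
  have hJinj : Function.Injective Jm := by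
    intro a b h
    apply Units.ext
    apply cmap_inj j j.injective
    rw [← hJval, ← hJval, h]
  let Sm : (U →+* U) → (CC (II n) U)ˣ →* (CC (II n) U)ˣ := fun σ =>
    Units.map (cmap σ : CC (II n) U →+* CC (II n) U).toMonoidHom
  have hSJ : ∀ (σ : U →+* U) w, Sm σ (Jm w) = Jm w := by
    intro σ w
    apply Units.ext
    change cmap σ (cmap j (w : CC (II n) (ZMod p))) = cmap j (w : CC (II n) (ZMod p))
    rw [cmap_comp]
    congr 2
    exact RingHom.ext_zmod _ _
  let W : (L ≃ₐ[K] L) → (CC (II n) U)ˣ := fun γ => Jm (Wl n hp (β' γ))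
  have hW : ∀ γ, IsLift (W γ : CC (II n) U) (ph n (β' γ)) := fun γ =>
    cmap_lift j (Wl_spec n hp (β' γ))
  have hJa : ∀ a : TA n (ZMod p), tr (Jm a : CC (II n) U) * (Jm a : CC (II n) U) = 1 := by
    intro a
    rw [hJval, ← cmap_tr, ← map_mul, a.2.1, map_one]
  obtain ⟨u, hu, hu1⟩ := exists_u_norm h2U (card_II n) hA
  let R : (U ≃ₐ[K] U) → G → Prop := fun σ g =>
    (∀ l, σ (algebraMap L U l) = algebraMap L U (g.right l)) ∧
      Sm (σ : U →+* U) u = (W g.right)⁻¹ * (Jm g.left)⁻¹ * u * W g.right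
  -- refined existence
  have hex : ∀ (σ : U ≃ₐ[K] U) (γ : L ≃ₐ[K] L) (s : Perm (Fin n)),
      (∀ l, σ (algebraMap L U l) = algebraMap L U (γ l)) →
      Perm.sign s = Perm.sign (β' γ) → (∀ i j, σ (A i j) = A (ph n s i) (ph n (β' γ) j)) →
      ∃ a : TA n (ZMod p), (rh n (ZMod p) a : Perm (Fin n)) * β' γ = s ∧ R σ ⟨a, γ⟩ := by
    intro σ γ s hγ hs hσA
    have hmem : s * (β' γ)⁻¹ ∈ alternatingGroup (Fin n) := by
      rw [Perm.mem_alternatingGroup, Perm.sign_mul, Perm.sign_inv, hs]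
      exact Int.units_mul_self _
    obtain ⟨a0, ha0⟩ := rh_surj n hp ⟨s * (β' γ)⁻¹, hmem⟩
    have ha0' : (rh n (ZMod p) a0 : Perm (Fin n)) = s * (β' γ)⁻¹ := by rw [ha0]
    let b := Jm a0 * W γ
    have hb : IsLift (b : CC (II n) U) (ph n s) := by
      have h3 := (cmap_lift j (rh_spec n (ZMod p) a0)).mul (hW γ)
      rw [← map_mul, ha0', inv_mul_cancel_right] at h3
      exact h3
    obtain ⟨c, hc, hwn⟩ := lift_norm h2U (card_II n) (hW γ)
    have hbn : tr (b : CC (II n) U) * (b : CC (II n) U) = c • (1 : CC (II n) U) := by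
      change tr ((Jm a0 : CC (II n) U) * (W γ : CC (II n) U)) *
        ((Jm a0 : CC (II n) U) * (W γ : CC (II n) U)) = _
      rw [tr_mul]
      calc tr (W γ : CC (II n) U) * tr (Jm a0 : CC (II n) U) *
            ((Jm a0 : CC (II n) U) * (W γ : CC (II n) U)) =
          tr (W γ : CC (II n) U) * (tr (Jm a0 : CC (II n) U) * (Jm a0 : CC (II n) U)) *
            (W γ : CC (II n) U) := by simp only [mul_assoc]
        _ = _ := by rw [hJa, mul_one, hwn]
    rcases u_change h2U (card_II n) (σ : U →+* U) hu hu1 hb (hW γ) hc hbn hwn hσA with h | h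
    · refine ⟨a0, by rw [ha0', inv_mul_cancel_right], hγ, ?_⟩
      change Sm (σ : U →+* U) u = _
      rw [h]
      change (Jm a0 * W γ)⁻¹ * u * W γ = (W γ)⁻¹ * (Jm a0)⁻¹ * u * W γ
      rw [mul_inv_rev]
    · refine ⟨neg1 n * a0, ?_, hγ, ?_⟩
      · rw [map_mul, rh_neg1, one_mul, ha0', inv_mul_cancel_right]
      · change Sm (σ : U →+* U) u = _
        rw [h]
        have h3 : Jm ((neg1 n * a0 : TA n (ZMod p)) : (CC (II n) (ZMod p))ˣ) = -Jm a0 := by
          apply Units.ext
          rw [Units.val_neg, hJval, hJval, Subgroup.coe_mul, neg1_val, neg_one_mul,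
            Units.val_neg, map_neg]
        change -((Jm a0 * W γ)⁻¹ * u * W γ) = (W γ)⁻¹ *
          (Jm ((neg1 n * a0 : TA n (ZMod p)) : (CC (II n) (ZMod p))ˣ))⁻¹ * u * W γ
        rw [h3, mul_inv_rev, inv_neg]
        simp only [mul_neg, neg_mul]
  -- products
  have hprod : ∀ σ τ g h, R σ g → R τ h → R (σ * τ) (g * h) := by
    rintro σ τ g h ⟨h3, h4⟩ ⟨h6, h7⟩
    refine ⟨fun l => ?_, ?_⟩
    · rw [AlgEquiv.mul_apply, h6, h3]
      rfl
    · have h8 : Sm ((σ * τ : U ≃ₐ[K] U) : U →+* U) u = Sm (σ : U →+* U) (Sm (τ : U →+* U) u) :=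
        rfl
      have h9 : ∀ x y, Sm (σ : U →+* U) (x * y) = Sm (σ : U →+* U) x * Sm (σ : U →+* U) y :=
        fun x y => map_mul _ x y
      have h10 : ∀ x, Sm (σ : U →+* U) x⁻¹ = (Sm (σ : U →+* U) x)⁻¹ := fun x => map_inv _ x
      have hWJ : ∀ γ, Sm (σ : U →+* U) (W γ) = W γ := fun γ => hSJ _ _
      rw [h8, h7, h9, h9, h9, h10, h10, hWJ, hSJ, h4]
      have h11 : IsLift ((W g.right * W h.right : (CC (II n) U)ˣ) : CC (II n) U)
          (ph n (β' (g.right * h.right))) := by
        rw [map_mul, map_mul, Units.val_mul]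
        exact (hW _).mul (hW _)
      obtain ⟨c, -, h12⟩ := lift_unique h2U (card_II n) h11 (hW (g.right * h.right))
      have h13 := conj_scal h12 ((Jm ((g * h).left : (CC (II n) (ZMod p))ˣ))⁻¹ * u)
      have h14 : (g * h).left = g.left * pact n hp (β' g.right) h.left := rfl
      have h15 : Jm ((g * h).left : (CC (II n) (ZMod p))ˣ) =
          Jm g.left * (W g.right * Jm h.left * (W g.right)⁻¹) := by
        rw [h14, Subgroup.coe_mul, pact_val, map_mul, map_mul, map_mul, map_inv]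
      rw [SemidirectProduct.mul_right, mul_assoc (W (g.right * h.right))⁻¹, h13, h15]
      group
  refine frame K L G SemidirectProduct.rightHom SemidirectProduct.rightHom_surjective U ι x hx
    R ?_ ?_ hprod ?_ (Set.range (fun g => (u : CC (II n) U) g) ∪
      Set.range fun i => algebraMap L U (Module.finBasis K L i)) ?_ ?_ ?_
  · -- existence
    intro σ hσ
    obtain ⟨γ, hγ⟩ : ∃ γ : L ≃ₐ[K] L, ∀ l, σ (algebraMap L U l) = algebraMap L U (γ l) :=
      ⟨σ.restrictNormal L, fun l => (AlgEquiv.restrictNormal_commutes σ L l).symm⟩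
    obtain ⟨s, hs1, hs2⟩ := h1 σ γ hγ hσ
    obtain ⟨a, -, ha⟩ := hex σ γ s hγ hs1 hs2
    exact ⟨_, ha⟩
  · -- uniqueness
    rintro σ g h ⟨h3, h4⟩ ⟨h6, h7⟩
    have h8 : g.right = h.right := by
      ext l
      apply (algebraMap L U).injective
      rw [← h3, ← h6]
    refine SemidirectProduct.ext ?_ h8
    rw [h4, h8] at h7
    have h9 := mul_right_cancel (mul_right_cancel h7)
    have h10 := inv_injective (mul_left_cancel h9)
    exact Subtype.ext (hJinj h10)
  · intro σ g h l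
    exact h.1 l
  · exact (Set.finite_range _).union (Set.finite_range _)
  · -- finiteness
    intro σ hσ hS
    refine ⟨fun l => ?_, ?_⟩
    · change σ (algebraMap L U l) = algebraMap L U l
      let bL := Module.finBasis K L
      rw [← bL.sum_repr l, map_sum, map_sum]
      refine Finset.sum_congr rfl fun i _ => ?_
      rw [Algebra.smul_def, map_mul, map_mul, hS _ (Or.inr ⟨i, rfl⟩),
        ← IsScalarTower.algebraMap_apply K L U, AlgEquiv.commutes]
    · have h3 : Sm (σ : U →+* U) u = u := by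
        apply Units.ext
        ext g
        exact hS _ (Or.inl ⟨g, rfl⟩)
      have h4 : IsLift ((1 : (CC (II n) U)ˣ) : CC (II n) U) (ph n (β' 1)) := by
        rw [map_one, map_one, Units.val_one]
        exact IsLift.one
      obtain ⟨c, -, h6⟩ := lift_unique h2U (card_II n) h4 (hW 1)
      have h7 := conj_scal h6 u
      change Sm (σ : U →+* U) u = (W 1)⁻¹ * (Jm 1)⁻¹ * u * W 1
      rw [h3, map_one, inv_one, mul_one, h7, inv_one, one_mul, mul_one]
  · -- the kernel
    have hk : ∀ s ∈ alternatingGroup (Fin n), ∃ σ : U ≃ₐ[K] U,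
        (∀ z, IsAlgebraic K z → σ z = z) ∧ (∀ i, σ (x i) = x i) ∧
        ∃ a : TA n (ZMod p), (rh n (ZMod p) a : Perm (Fin n)) = s ∧ R σ ⟨a, 1⟩ := by
      intro s hs
      obtain ⟨σ, h3, h4, h6⟩ := h2 s hs
      obtain ⟨a, ha, ha'⟩ := hex σ 1 s
        (fun l => h3 _ (Algebra.IsAlgebraic.isAlgebraic (R := K) l).algebraMap)
        (by rw [map_one, Perm.sign_one]; exact Perm.mem_alternatingGroup.1 hs)
        (fun i j => by
          rw [h6, map_one, map_one]
          rfl)
      rw [map_one, mul_one] at ha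
      exact ⟨σ, h3, h4, a, ha, ha'⟩
    intro g hg
    have hgr : g.right = 1 := hg
    obtain ⟨σ, h3, h4, a, ha, hR⟩ := hk (rh n (ZMod p) g.left) (rh n (ZMod p) g.left).2
    rcases eq_or_neg n hp g.left a (Subtype.ext ha.symm) with h | h
    · refine ⟨σ, h3, h4, ?_⟩
      have h6 : g = ⟨a, 1⟩ := SemidirectProduct.ext h hgr
      rw [h6]
      exact hR
    · obtain ⟨w, hw⟩ := exists_sq n (F := ZMod p) hp (by omega)
      obtain ⟨τ, h6, h7, b, hb, hR'⟩ := hk (rh n (ZMod p) w) (rh n (ZMod p) w).2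
      have hbb : b * b = neg1 n := by
        rcases eq_or_neg n hp b w (Subtype.ext hb) with h | h
        · rw [h, hw]
        · rw [h, mul_assoc, ← mul_assoc w, neg1_comm, mul_assoc, ← mul_assoc, neg1_sq, one_mul, hw]
      have h8 := hprod _ _ _ _ (hprod _ _ _ _ hR' hR') hR
      have h9 : (⟨b, 1⟩ * ⟨b, 1⟩ * ⟨a, 1⟩ : G) = g := by
        refine SemidirectProduct.ext ?_ ?_
        · change b * (pact n hp (β' 1)) b * (pact n hp (β' (1 * 1))) a = g.left
          rw [mul_one, map_one, map_one, MulAut.one_apply, MulAut.one_apply, hbb, h]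
        · rw [hgr]
          exact mul_one _
      rw [h9] at h8
      refine ⟨_, fun z hz => ?_, fun i => ?_, h8⟩
      · rw [AlgEquiv.mul_apply, AlgEquiv.mul_apply, h3 z hz, h6 z hz, h6 z hz]
      · rw [AlgEquiv.mul_apply, AlgEquiv.mul_apply, h4, h7, h7]

end Pool.Agent.K7.H53.DB
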