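import Pool.Agent.K7.H53.DB.Set2
import Pool.Agent.K7.H53.DB.Fr

/-!
# Split embedding problems with kernel the double cover of an alternating group
-/

set_option autoImplicit false
set_option linter.unusedSectionVars false
set_option linter.unusedVariables false

open Finset Equiv

namespace Pool.Agent.K7.H53.DB

open Pool.Agent.K7.H53.MA
open Pool.Agent.H391R2.T4 (RegSol)
open Pool.Agent.Y60.DC (exists_univ LocP)

theorem exists_ps (n : ℕ) (b : Perm (JJ n)) (hb : ∀ i, b (Sum.inr i) = Sum.inr i) :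
    ∃ s : Perm (Fin n), b = ps n s := by
  have h1 : Set.MapsTo b (Set.range (Sum.inl : Fin n → JJ n)) (Set.range Sum.inl) := by
    rintro _ ⟨i, rfl⟩
    rcases h : b (Sum.inl i) with j | j
    · exact ⟨j, rfl⟩
    · exfalso
      have h2 := b.injective (h.trans (hb j).symm)
      cases h2
  obtain ⟨⟨s, t⟩, h3⟩ := Perm.mem_sumCongrHom_range_of_perm_mapsTo_inl h1
  refine ⟨s, ?_⟩
  have h4 : ∀ i, t i = i := by
    intro i
    have h5 := hb i
    rw [← h3] at h5
    exact Sum.inr_injective h5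
  rw [← h3]
  ext (i | i) : 1
  · rfl
  · change Sum.inr (t i) = Sum.inr i
    rw [h4]

theorem ph_some (n : ℕ) (s : Perm (Fin n)) (i : JJ n) : ph n s (some i) = some (ps n s i) := rfl

theorem ph_none (n : ℕ) (s : Perm (Fin n)) : ph n s none = none := rfl

theorem Ao_map {n : ℕ} {U : Type} [Field U] {A : Matrix (JJ n) (JJ n) U} (σ : U →+* U)
    (s t : Perm (Fin n)) (h : ∀ i j, σ (A i j) = A (ps n s i) (ps n t j)) (i j : II n) :
    σ (Ao A i j) = Ao A (ph n s i) (ph n t j) := by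
  rcases i with _ | i <;> rcases j with _ | j
  · exact map_one σ
  · exact map_zero σ
  · exact map_zero σ
  · exact h i j

theorem two_ne {p : ℕ} [hp : Fact p.Prime] (h2 : p ≠ 2) : (2 : ZMod p) ≠ 0 := by
  intro h
  have h3 : ((2 : ℕ) : ZMod p) = 0 := by exact_mod_cast h
  rw [ZMod.natCast_eq_zero_iff] at h3
  exact h2 ((Nat.prime_dvd_prime_iff_eq hp.out Nat.prime_two).1 h3)

/-- **Split embedding problems.** -/
theorem loc_db (p : ℕ) [Fact p.Prime] (hp2 : p ≠ 2) (n : ℕ) (h5 : 5 ≤ n)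
    (K L : Type) [Field K] [CharP K p] [Infinite K] [Field L] [Algebra K L]
    [FiniteDimensional K L] [IsGalois K L] (β' : (L ≃ₐ[K] L) →* Perm (Fin n)) :
    RegSol K L (TA n (ZMod p) ⋊[(pact n (two_ne hp2)).comp β'] (L ≃ₐ[K] L))
      SemidirectProduct.rightHom := by
  classical
  have hodd := card_JJ n
  have h5' : 5 ≤ Fintype.card (JJ n) := by
    rw [Fintype.card_sum, Fintype.card_fin]
    omega
  obtain ⟨U, iU, icU, aKU, aLU, tU, u, hu⟩ := exists_univ K L (Option (JJ n))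
  have cU : CharP U p := charP_of_injective_algebraMap (algebraMap K U).injective p
  obtain ⟨ξ, A, hA, hξ, A1, A2, A3, A4⟩ := setup2 K L (JJ n) hodd h5' ((ps n).comp β') U u hu
    (niceP_of_ne p hp2 _ U hodd)
  have hbase : ∃ x : Option (JJ n) → U, IsTranscendenceBasis K x ∧
      (∀ (σ : U ≃ₐ[K] U) (γ : L ≃ₐ[K] L), (∀ l, σ (algebraMap L U l) = algebraMap L U (γ l)) →
        (∀ i, σ (x i) = x i) → (∀ o, σ (u o) = u o) ∧
          ∀ i, σ (ξ (Sum.inr i)) = ξ (Sum.inr i)) ∧
      ∀ (σ : U ≃ₐ[K] U), (∀ o, σ (u o) = u o) → (∀ i, σ (ξ (Sum.inr i)) = ξ (Sum.inr i)) →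
        ∀ i, σ (x i) = x i := by
    rcases Nat.even_or_odd n with hev | hod
    · have h1 : (n + 1) % 2 = 1 := by
        obtain ⟨m, hm⟩ := hev
        omega
      let i0 : Fin ((n + 1) % 2) := ⟨0, by omega⟩
      have hi0 : ∀ i : Fin ((n + 1) % 2), i = i0 := by
        intro i
        apply Fin.ext
        have h2 := i.2
        change (i : ℕ) = 0
        omega
      refine ⟨zz (fun j => u (some j)) (ξ (Sum.inr i0)), A4 _, ?_, ?_⟩
      · intro σ γ h2 h3
        have h4 : ∀ j, σ (u (some j)) = u (some j) := fun j => h3 (some j)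
        have h6 : σ (ξ (Sum.inr i0)) = ξ (Sum.inr i0) := h3 none
        refine ⟨fun o => ?_, fun i => ?_⟩
        · rcases o with _ | j
          · exact A1 σ γ h2 h4 _ h6
          · exact h4 j
        · rw [hi0 i]
          exact h6
      · intro σ h2 h3 o
        rcases o with _ | j
        · exact h3 i0
        · exact h2 (some j)
    · have h1 : (n + 1) % 2 = 0 := by
        obtain ⟨m, hm⟩ := hod
        omega
      refine ⟨u, hu, fun σ γ _ h3 => ⟨h3, fun i => ?_⟩, fun σ h2 _ => h2⟩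
      have h2 := i.2
      omega
  obtain ⟨x, hx, B1, B2⟩ := hbase
  refine frame_db p (two_ne hp2) K L n h5 β' U (Option (JJ n)) x hx (Ao A) (Ao_orth hA) ?_ ?_
  · intro σ γ h1 h2
    obtain ⟨h3, h4⟩ := B1 σ γ h1 h2
    obtain ⟨b, hb1, hb2, hb3⟩ := A2 σ γ h1 (fun i => h3 (some i)) (h3 none)
    obtain ⟨s, rfl⟩ := exists_ps n b fun i => hξ (by rw [← hb1, h4])
    refine ⟨s, ?_, fun i j => Ao_map (σ : U →+* U) s (β' γ) hb3 i j⟩
    rw [← sign_ps, hb2]
    exact sign_ps n _
  · intro s hs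
    obtain ⟨σ, h1, h2, h3, h4⟩ := A3 (ps n s) (by
      rw [Perm.mem_alternatingGroup, sign_ps]
      exact Perm.mem_alternatingGroup.1 hs)
    refine ⟨σ, h1, B2 σ h2 fun i => h3 _, fun i j => ?_⟩
    have h7 : ∀ i j, (σ : U →+* U) (A i j) = A (ps n s i) (ps n 1 j) := fun i j => by
      rw [map_one]
      exact h4 i j
    have h6 := Ao_map (σ : U →+* U) s 1 h7 i j
    rw [map_one] at h6
    exact h6

/-- Split embedding problems with any action. -/
theorem locP_db (p : ℕ) [Fact p.Prime] (hp2 : p ≠ 2) (n : ℕ) (h5 : 5 ≤ n) (h6 : n ≠ 6) :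
    LocP p (TA n (ZMod p)) := by
  intro K L _ _ _ _ _ _ _ β
  let E := MulEquiv.ofBijective (pact n (two_ne hp2)) (pact_bij n (two_ne hp2) h5 h6)
  let β' : (L ≃ₐ[K] L) →* Perm (Fin n) := (E.symm : _ →* Perm (Fin n)).comp β
  have hβ : β = (pact n (two_ne hp2)).comp β' := by
    ext γ : 1
    exact (E.apply_symm_apply (β γ)).symm
  rw [hβ]
  exact loc_db p hp2 n h5 K L β'

end Pool.Agent.K7.H53.DB
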