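import Pool.Agent.K7.H53.DB.Step
import Pool.Agent.K7.H53.DB.Loc
import Pool.Agent.K7.H53.MA.Out

/-!
# Kernels which are powers of double covers of alternating groups
-/

set_option autoImplicit false

namespace Pool.Agent.K7.H53.DB

open Pool.Agent.Y60.DC
open Pool.Agent.K7.H53.MA
open Pool.Agent.H391R2 Pool.Agent.H391R2.T4
open Pool.Agent.TH15.IGP (StepSol Lim)
open Pool.Agent.TH444.TW (Cls RSK infinite_ratFunc infinite_of_hilb RegularOver IsInnerPower
  inner_rsk)

theorem isDoubleCover (p : ℕ) [Fact p.Prime] (hp : p ≠ 2) (n : ℕ) (h5 : 5 ≤ n) :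
    IsDoubleCover n (TA n (ZMod p)) := by
  have h2 := two_ne hp
  refine ⟨finite_TA n h2, perfect n h2 h5, rh n (ZMod p), rh_surj n h2, ?_, ?_⟩
  · have h3 : ((rh n (ZMod p)).ker : Set (TA n (ZMod p))) = {1, neg1 n} := by
      ext w
      exact ker_rh n h2 w
    have h4 : Nat.card (rh n (ZMod p)).ker = Set.ncard ({1, neg1 n} : Set (TA n (ZMod p))) := by
      rw [← h3]
      rfl
    rw [h4]
    exact Set.ncard_pair (neg1_ne n h2).symm
  · intro w hw
    exact (center_TA n h2 h5 w).2 hw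

theorem regSol_TA (p : ℕ) [Fact p.Prime] (hp : p ≠ 2) (n : ℕ) (h5 : 5 ≤ n) (K : Type) [Field K]
    [CharP K p] [Infinite K] (L : Type) [Field L] [Algebra K L] [FiniteDimensional K L]
    [IsGalois K L] : RegSol K L (TA n (ZMod p) × (L ≃ₐ[K] L)) (MonoidHom.snd _ _) := by
  have h1 := loc_db p hp n h5 K L 1
  let e : TA n (ZMod p) ⋊[(pact n (two_ne hp)).comp (1 : (L ≃ₐ[K] L) →* Equiv.Perm (Fin n))]
      (L ≃ₐ[K] L) →* TA n (ZMod p) × (L ≃ₐ[K] L) :=
    { toFun := fun x => (x.left, x.right)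
      map_one' := rfl
      map_mul' := fun x y => by
        refine Prod.ext ?_ rfl
        change x.left * (pact n (two_ne hp) ((1 : (L ≃ₐ[K] L) →* Equiv.Perm (Fin n)) x.right))
          y.left = x.left * y.left
        rw [MonoidHom.one_apply, map_one, MulAut.one_apply] }
  refine Pool.Agent.W200.IJ.regSol_quot (L' := L) _ SemidirectProduct.rightHom e ?_ ?_ ?_ h1
  · rintro ⟨a, b⟩
    exact ⟨⟨a, b⟩, rfl⟩
  · intro g
    rw [Pool.Agent.TH444.TW.restrictNormal_self]
    rfl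
  · intro ρ hρ
    rw [Pool.Agent.TH444.TW.restrictNormal_self] at hρ
    exact ⟨1, map_one _, by rw [map_one, hρ]⟩

/-- The double covers occur regularly. -/
theorem regSol_TA1 (p : ℕ) [Fact p.Prime] (hp : p ≠ 2) (n : ℕ) (h5 : 5 ≤ n) (K : Type) [Field K]
    [CharP K p] : RegSol K K (TA n (ZMod p)) 1 := by
  have hfin := finite_TA n (two_ne hp)
  have key : ∀ (K L : Type) [Field K] [CharP K p] [Infinite K] [Field L] [Algebra K L]
      [FiniteDimensional K L] [IsGalois K L] (q : TA n (ZMod p) →* (L ≃ₐ[K] L)), q = 1 →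
      (∀ σ : L ≃ₐ[K] L, σ = 1) → RegSol K L (TA n (ZMod p)) q := by
    intro K L _ _ _ _ _ _ _ q hq hL
    refine Pool.Agent.W200.IJ.regSol_quot (L' := L) _ (MonoidHom.snd _ _)
      (MonoidHom.fst (TA n (ZMod p)) (L ≃ₐ[K] L)) ?_ ?_ ?_ (regSol_TA p hp n h5 K L)
    · intro a
      exact ⟨(a, 1), rfl⟩
    · intro g
      exact (hL _).trans (hL _).symm
    · intro ρ hρ
      exact ⟨1, map_one _, by rw [hL ρ, hL (MonoidHom.snd _ _ 1)]⟩
  rcases finite_or_infinite K with hf | hi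
  · refine Pool.Agent.TH15.IGP.fin_of_inf K K (TA n (ZMod p)) _ ?_
    intro M' _ _ _ _ γM
    have := infinite_ratFunc K
    have hch : CharP (RatFunc K) p :=
      charP_of_injective_algebraMap (algebraMap K (RatFunc K)).injective p
    have hL : ∀ σ : M' ≃ₐ[RatFunc K] M', σ = 1 := by
      intro σ
      have h1 : ∀ τ : K ≃ₐ[K] K, τ = 1 := fun τ => AlgEquiv.ext fun x => τ.commutes x
      apply γM.injective
      rw [h1 (γM σ), map_one]
    exact key (RatFunc K) M' _ (MonoidHom.ext fun g => hL _) hL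
  · exact key K K _ rfl fun σ => AlgEquiv.ext fun x => σ.commutes x

theorem regularOver_TA (p : ℕ) [Fact p.Prime] (hp : p ≠ 2) (n : ℕ) (h5 : 5 ≤ n) (K : Type)
    [Field K] [CharP K p] : RegularOver K (TA n (ZMod p)) := by
  obtain ⟨F, i1, i2, i3, i4, i5, i6, i7, i8, γ, h1, hreg⟩ := regSol_TA1 p hp n h5 K
  have h34 : i4 = i3 := Algebra.algebra_ext i4 i3 (fun x =>
    @IsScalarTower.algebraMap_apply K K F _ _ _ _ i3 i4 i6 x)
  subst h34
  exact ⟨F, i1, i2, i4, i5, i7, i8, ⟨γ⟩, hreg⟩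

variable {K : Type} [Field K]

/-- The class of homomorphisms (internal form). -/
inductive StepB (p : ℕ) [Fact p.Prime] (K : Type) [Field K] :
    ∀ {W W' : Type} [Group W] [Group W'], (W' →* W) → Prop
  | base {W W' : Type} [Group W] [Group W'] (π : W' →* W) (h : StepA p K π) : StepB p K π
  | power {W W' : Type} [Group W] [Group W'] (π : W' →* W) (n : ℕ) (h5 : 5 ≤ n) (h6 : n ≠ 6)
      (h : IsAutPower (TA n (ZMod p)) π) : StepB p K π
  | inner {W W' : Type} [Group W] [Group W'] (π : W' →* W)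
      (h : IsInnerPower (TA 6 (ZMod p)) π) : StepB p K π
  | comp {W W' W'' : Type} [Group W] [Group W'] [Group W''] (π : W' →* W) (q : W'' →* W')
      (hp : StepB p K π) (hq : StepB p K q) : StepB p K (π.comp q)
  | quot {W W' W'' : Type} [Group W] [Group W'] [Group W''] (π : W' →* W) (q : W'' →* W')
      (hq : Function.Surjective q) (hpq : StepB p K (π.comp q)) : StepB p K π

theorem StepD.toB (p : ℕ) [Fact p.Prime] (K : Type) [Field K] {W W' : Type} [Group W] [Group W']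
    {π : W' →* W} (h : StepD p π) : StepB p K π := by
  rcases h with h | ⟨n, h5, h6, h⟩ | h
  · exact StepB.base π (h.toA p K)
  · exact StepB.power π n h5 h6 h
  · exact StepB.inner π h

theorem finite_of_range {T W W' : Type} [Group T] [Finite T] [Group W] [Finite W] [Group W']
    (k : ℕ) (ι : (Fin k → T) →* W') (π : W' →* W) (hr : ι.range = π.ker) : Finite W' := by
  have h1 : Finite π.ker := by
    rw [← hr]
    exact Set.finite_range ι
  exact Pool.Agent.TH444.TW.finite_of_ker π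

theorem StepB.main (p : ℕ) [Fact p.Prime] (hp2 : p ≠ 2) [CharP K p] {W W' : Type} [Group W]
    [Group W'] {π : W' →* W} (h : StepB p K π) : Finite W → Finite W' ∧ RSK K π := by
  induction h with
  | base π h =>
    intro hW
    exact h.main p hW
  | power π n h5 h6 h =>
    intro hW
    have hT := finite_TA n (two_ne hp2)
    refine ⟨?_, autPower_rsk p K (TA n (ZMod p)) (locP_db p hp2 n h5 h6) π h⟩
    obtain ⟨k, ψ, ι, s, h1, h2, -⟩ := h
    exact finite_of_range k ι π h2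
  | inner π h =>
    intro hW
    have hT := finite_TA 6 (two_ne hp2)
    refine ⟨?_, inner_rsk (regularOver_TA p hp2 6 (by norm_num) K) π h⟩
    obtain ⟨k, ψ, ι, s, h1, h2, -⟩ := h
    exact finite_of_range k ι π h2
  | comp π q hp hq ihp ihq =>
    intro hW
    obtain ⟨h1, h2⟩ := ihp hW
    obtain ⟨h3, h4⟩ := ihq h1
    exact ⟨h3, RSK.comp h2 h4⟩
  | quot π q hq hpq ih =>
    intro hW
    obtain ⟨h1, h2⟩ := ih hW
    exact ⟨Finite.of_surjective q hq, RSK.quot q hq (fun x => rfl) h2⟩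

/-- Finite embedding problems. -/
theorem stepB_one (p : ℕ) [Fact p.Prime] (hp2 : p ≠ 2) (K L X : Type) [Field K] [CharP K p]
    [Field L] [Algebra K L] [FiniteDimensional K L] [IsGalois K L] [Group X]
    (α : X →* (L ≃ₐ[K] L)) (h : StepB p K α) : Finite X ∧ RegSol K L X α := by
  obtain ⟨h1, h2⟩ := h.main p hp2 inferInstance
  refine ⟨h1, ?_⟩
  have h3 := h2.all L (MulEquiv.refl _)
  exact h3

theorem towerB_finite (p : ℕ) [Fact p.Prime] (hp2 : p ≠ 2) [CharP K p] (W : ℕ → Type)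
    [∀ i, Group (W i)] (π : ∀ i, W (i + 1) →* W i) (hp : ∀ i, StepB p K (π i))
    (h0 : Finite (W 0)) : ∀ i, Finite (W i) := by
  intro i
  induction i with
  | zero => exact h0
  | succ i ih => exact ((hp i).main p hp2 ih).1

/-- Towers over fields with the specialisation property. -/
theorem stepB_spec (p : ℕ) [Fact p.Prime] (hp2 : p ≠ 2) {K : Type} [Field K] [CharP K p]
    [Infinite K] (hK : Pool.Agent.TH377.IG.SpecProp K)
    (W : ℕ → Type) [∀ i, Group (W i)] (π : ∀ i, W (i + 1) →* W i) (hp : ∀ i, StepB p K (π i))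
    (L : Type) [Field L] [Algebra K L] [FiniteDimensional K L] [IsGalois K L]
    (e₀ : W 0 ≃* (L ≃ₐ[K] L)) :
    ∃ (F : Type) (_ : Field F) (_ : Algebra K F) (_ : Algebra L F) (_ : IsScalarTower K L F)
      (_ : IsGalois K F) (γ : (F ≃ₐ[K] F) ≃* Lim π),
      (∀ i, IsOpen {σ : F ≃ₐ[K] F | (γ σ).1 i = 1}) ∧
      ∀ (σ : F ≃ₐ[K] F) (x : L),
        σ (algebraMap L F x) = algebraMap L F (e₀ ((γ σ).1 0) x) := by
  have hfin := towerB_finite p hp2 W π hp (Finite.of_equiv _ e₀.symm.toEquiv)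
  exact Pool.Agent.TH377.IG.tower_spec hK W π
    (fun i M _ _ _ _ ε => ((hp i).main p hp2 (hfin i)).2 K M ε) L e₀

/-- Towers over rational function fields over finite fields. -/
theorem stepB_ratFunc (p : ℕ) [Fact p.Prime] (hp2 : p ≠ 2) (κ : Type) [Field κ] [Finite κ]
    [CharP κ p] (W : ℕ → Type) [∀ i, Group (W i)] (π : ∀ i, W (i + 1) →* W i)
    (hp : ∀ i, StepB p (RatFunc κ) (π i))
    (L : Type) [Field L] [Algebra (RatFunc κ) L] [FiniteDimensional (RatFunc κ) L]
    [IsGalois (RatFunc κ) L] (e₀ : W 0 ≃* (L ≃ₐ[RatFunc κ] L)) :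
    ∃ (F : Type) (_ : Field F) (_ : Algebra (RatFunc κ) F) (_ : Algebra L F)
      (_ : IsScalarTower (RatFunc κ) L F) (_ : IsGalois (RatFunc κ) F)
      (γ : (F ≃ₐ[RatFunc κ] F) ≃* Lim π),
      (∀ i, IsOpen {σ : F ≃ₐ[RatFunc κ] F | (γ σ).1 i = 1}) ∧
      ∀ (σ : F ≃ₐ[RatFunc κ] F) (x : L),
        σ (algebraMap L F x) = algebraMap L F (e₀ ((γ σ).1 0) x) := by
  have := infinite_ratFunc κ
  have := charP_ratFunc κ p
  exact stepB_spec p hp2 (Pool.Agent.TH377.IG.spec_ratFunc κ) W π hp L e₀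

/-- Proper solutions over fields with the specialisation property. -/
theorem stepB_spec_one (p : ℕ) [Fact p.Prime] (hp2 : p ≠ 2) {K : Type} [Field K] [CharP K p]
    (hK : Pool.Agent.TH377.IG.SpecProp K) (L X : Type) [Field L]
    [Algebra K L] [FiniteDimensional K L] [IsGalois K L] [Group X] (α : X →* (L ≃ₐ[K] L))
    (h : StepB p K α) :
    ∃ (F : Type) (_ : Field F) (_ : Algebra K F) (_ : Algebra L F)
          (_ : IsScalarTower K L F),
          FiniteDimensional K F ∧ IsGalois K F ∧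
          ∃ γ : (F ≃ₐ[K] F) ≃* X, ∀ σ : F ≃ₐ[K] F, α (γ σ) = σ.restrictNormal L := by
  obtain ⟨h1, F, i1, i2, i3, i4, i5, i6, i7, i8, γ, hγ, -⟩ := stepB_one p hp2 K L X α h
  exact hK L X α ⟨F, i1, i2, i3, i4, i5, i6, i7, i8, γ, hγ⟩

theorem stepB_of_equiv (p : ℕ) [Fact p.Prime] (K : Type) [Field K] {W W' : Type} [Group W]
    [Group W'] (e : W' ≃* W) : StepB p K (e : W' →* W) := by
  refine StepB.base _ (StepA.kernel _ e.surjective ?_ ?_)
  · have h1 : ∀ a : (e : W' →* W).ker, (a : W') = 1 := fun a =>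
      (map_eq_one_iff e e.injective).1 a.2
    have : Subsingleton (e : W' →* W).ker := ⟨fun a b => Subtype.ext ((h1 a).trans (h1 b).symm)⟩
    infer_instance
  · refine CompIn.one _ ⟨fun a b => ?_⟩
    have h1 : ∀ a : (e : W' →* W).ker, (a : W') = 1 := fun a =>
      (map_eq_one_iff e e.injective).1 a.2
    exact Subtype.ext ((h1 a).trans (h1 b).symm)

/-- From a group to an extension of the group. -/
theorem extendB (p : ℕ) [Fact p.Prime] (hp2 : p ≠ 2) (κ : Type) [Field κ] [Finite κ] [CharP κ p]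
    (G G' : Type) [Group G] [Group G'] (π : G' →* G) (h : StepD p π)
    (hq : Occurs (RatFunc κ) G) : Occurs (RatFunc κ) G' := by
  obtain ⟨L, i1, i2, i3, i4, ⟨e⟩⟩ := hq
  have := charP_ratFunc κ p
  let α : G' →* (L ≃ₐ[RatFunc κ] L) := (e.symm : G →* (L ≃ₐ[RatFunc κ] L)).comp π
  have hα : StepB p (RatFunc κ) α :=
    StepB.comp (e.symm : G →* (L ≃ₐ[RatFunc κ] L)) π (stepB_of_equiv p _ e.symm) (h.toB p _)
  obtain ⟨F, j1, j2, -, -, j5, j6, γ, -⟩ := stepB_spec_one p hp2
    (Pool.Agent.TH377.IG.spec_ratFunc κ) L G' α hα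
  exact ⟨F, j1, j2, j5, j6, ⟨γ⟩⟩

/-- The groups of the class: the homomorphism to the trivial group is a composition of steps. -/
theorem Built.stepB (p : ℕ) [Fact p.Prime] (K : Type) [Field K] {G : Type} [Group G]
    (h : Built p G) : ∀ (Γ : Type) [Group Γ] (_ : Subsingleton Γ), StepB p K (1 : G →* Γ) := by
  induction h with
  | one G h =>
    intro Γ _ hΓ
    let e : G ≃* Γ :=
      { toFun := fun _ => 1
        invFun := fun _ => 1
        left_inv := fun _ => Subsingleton.elim _ _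
        right_inv := fun _ => Subsingleton.elim _ _
        map_mul' := fun _ _ => Subsingleton.elim _ _ }
    have h1 : (1 : G →* Γ) = (e : G →* Γ) := MonoidHom.ext fun _ => Subsingleton.elim _ _
    rw [h1]
    exact stepB_of_equiv p K e
  | step π h hG ih =>
    intro Γ _ hΓ
    have h1 : (1 : _ →* Γ) = (1 : _ →* Γ).comp π := MonoidHom.ext fun _ => Subsingleton.elim _ _
    rw [h1]
    exact StepB.comp _ π (ih Γ hΓ) (h.toB p K)
  | quot q hq hG ih =>
    intro Γ _ hΓ
    refine StepB.quot _ q hq ?_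
    have h1 : (1 : _ →* Γ).comp q = 1 := MonoidHom.ext fun _ => Subsingleton.elim _ _
    rw [h1]
    exact ih Γ hΓ

theorem Built.finite (p : ℕ) [Fact p.Prime] (hp2 : p ≠ 2) {G : Type} [Group G]
    (h : Built p G) : Finite G :=
  ((h.stepB p (ZMod p) Unit inferInstance).main p hp2 inferInstance).1

theorem Built.regSol (p : ℕ) [Fact p.Prime] (hp2 : p ≠ 2) {G : Type} [Group G]
    (h : Built p G) (K : Type) [Field K] [CharP K p] : RegSol K K G 1 := by
  have h1 : Subsingleton (K ≃ₐ[K] K) := ⟨fun σ τ => AlgEquiv.ext fun x => by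
    rw [show σ x = x from σ.commutes x, show τ x = x from τ.commutes x]⟩
  exact (stepB_one p hp2 K K G 1 (h.stepB p K _ h1)).2

theorem Built.regular (p : ℕ) [Fact p.Prime] (hp2 : p ≠ 2) {G : Type} [Group G]
    (h : Built p G) (K : Type) [Field K] [CharP K p] : OccursRegularly K G := by
  obtain ⟨F, i1, i2, i3, i4, i5, i6, i7, i8, γ, h1, hreg⟩ := h.regSol p hp2 K
  have h34 : i4 = i3 := Algebra.algebra_ext i4 i3 (fun x =>
    @IsScalarTower.algebraMap_apply K K F _ _ _ _ i3 i4 i6 x)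
  subst h34
  exact ⟨F, i1, i2, i4, i5, i7, i8, ⟨γ⟩, hreg⟩

theorem Built.occurs (p : ℕ) [Fact p.Prime] (hp2 : p ≠ 2) {G : Type} [Group G]
    (h : Built p G) (κ : Type) [Field κ] [Finite κ] [CharP κ p] : Occurs (RatFunc κ) G := by
  have := charP_ratFunc κ p
  let K := RatFunc κ
  have h1 : Subsingleton (K ≃ₐ[K] K) := ⟨fun σ τ => AlgEquiv.ext fun x => by
    rw [show σ x = x from σ.commutes x, show τ x = x from τ.commutes x]⟩
  obtain ⟨F, j1, j2, -, -, j5, j6, γ, -⟩ := stepB_spec_one p hp2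
    (Pool.Agent.TH377.IG.spec_ratFunc κ) K G 1 (h.stepB p K _ h1)
  exact ⟨F, j1, j2, j5, j6, ⟨γ⟩⟩

end Pool.Agent.K7.H53.DB
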