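import Pool.Agent.K7.H53.DB.CC

/-!
# Intertwining elements
-/

set_option autoImplicit false
set_option linter.unusedSectionVars false

open Finset

namespace Pool.Agent.K7.H53.DB

section gen

variable {I R : Type} [Fintype I] [DecidableEq I] [CommRing R]

theorem E_sq (g : I → ZMod 2) : (E g * E g : CC I R) = (ep (B g g) : R) • 1 := by
  rw [E_mul, gg]
  rfl

theorem gen_ind (P : CC I R → Prop) (h1 : P 1) (hl : ∀ i x, P x → P (e i * x))
    (hs : ∀ (c : R) x, P x → P (c • x)) (g : I → ZMod 2) : P (E g) := by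
  have key : ∀ s : Finset I, P (E fun i => if i ∈ s then 1 else 0) := by
    intro s
    induction s using Finset.induction_on with
    | empty =>
      have h2 : (fun i : I => if i ∈ (∅ : Finset I) then (1 : ZMod 2) else 0) = 0 := by
        ext i
        simp
      rw [h2]
      exact h1
    | insert a s ha ih =>
      have h2 : (fun i : I => if i ∈ insert a s then (1 : ZMod 2) else 0) =
          Pi.single a 1 + fun i => if i ∈ s then 1 else 0 := by
        ext i
        rw [Pi.add_apply]
        by_cases h : i = a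
        · subst h
          rw [Pi.single_eq_same, if_pos (mem_insert_self _ _), if_neg ha, add_zero]
        · rw [Pi.single_eq_of_ne h, zero_add]
          by_cases h3 : i ∈ s
          · rw [if_pos (mem_insert_of_mem h3), if_pos h3]
          · rw [if_neg (fun h4 => (mem_insert.1 h4).elim h h3), if_neg h3]
      rw [h2]
      have h3 := E_mul (R := R) (Pi.single a 1) fun i => if i ∈ s then 1 else 0
      have h4 := congrArg (fun x => (ep (B (Pi.single a 1) fun i => if i ∈ s then 1 else 0) : R) • x)
        h3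
      beta_reduce at h4
      rw [smul_smul, ep_sq, one_smul] at h4
      rw [← h4]
      exact hs _ _ (hl a _ ih)
  have h2 : g = fun i => if i ∈ (univ.filter fun i => g i = 1) then 1 else 0 := by
    ext i
    rcases zm (g i) with h | h
    · rw [h, if_neg]
      simp [h]
    · rw [h, if_pos]
      simp [h]
  rw [h2]
  exact key _

end gen

section field

variable {I F : Type} [Fintype I] [DecidableEq I] [Field F]

theorem ep_ne0 (a : ZMod 2) : (ep a : F) ≠ 0 := fun h => by
  have h1 := ep_sq (R := F) a
  rw [h, zero_mul] at h1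
  exact zero_ne_one h1

theorem ep_eq_one (h2 : (2 : F) ≠ 0) {a : ZMod 2} (h : (ep a : F) = 1) : a = 0 := by
  rcases zm a with h1 | h1
  · exact h1
  · exfalso
    rw [h1, ep_one] at h
    apply h2
    linear_combination -h

theorem zero_of_tot (hev : Even (Fintype.card I)) (k : I → ZMod 2)
    (h : ∀ i, tot k + k i = 0) : k = 0 := by
  have h1 : ∀ i, k i = tot k := fun i => (CharTwo.add_eq_zero.1 (h i)).symm
  have h2 : tot k = 0 := by
    have h3 : tot k = ∑ _i : I, tot k := sum_congr rfl fun i _ => h1 i
    rw [h3, sum_const, card_univ]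
    obtain ⟨m, hm⟩ := hev
    rw [hm, add_smul, CharTwo.add_self_eq_zero]
  ext i
  rw [h1, h2]
  rfl

theorem one_in (h2 : (2 : F) ≠ 0) (hev : Even (Fintype.card I)) (N : CC I F → Prop)
    (hadd : ∀ x y, N x → N y → N (x + y)) (hs : ∀ (c : F) x, N x → N (c • x))
    (hl : ∀ i x, N x → N (e i * x)) (hr : ∀ i x, N x → N (x * e i)) {x : CC I F} (hx : N x)
    (h0 : x ≠ 0) : N 1 := by
  obtain ⟨k, hk⟩ : ∃ k, x k ≠ 0 := by
    by_contra h
    push Not at h
    exact h0 (CC.ext h)
  have h1 : N (E k * x) := gen_ind (fun a => N (a * x)) (by rwa [one_mul])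
    (fun i a ha => by
      rw [mul_assoc]
      exact hl i _ ha)
    (fun c a ha => by
      rw [smul_mul_assoc]
      exact hs c _ ha) k
  have h3 : (E k * x : CC I F) 0 ≠ 0 := by
    rw [E_mul_apply, add_zero]
    exact mul_ne_zero (ep_ne0 _) hk
  have key : ∀ s : Finset I, ∃ y : CC I F, N y ∧ y 0 ≠ 0 ∧
      ∀ g, y g ≠ 0 → ∀ i ∈ s, tot g + g i = 0 := by
    intro s
    induction s using Finset.induction_on with
    | empty => exact ⟨_, h1, h3, fun g _ i hi => absurd hi (Finset.notMem_empty i)⟩
    | insert a s ha ih =>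
      obtain ⟨y, y1, y2, y3⟩ := ih
      refine ⟨y + e a * y * e a, hadd _ _ y1 (hr a _ (hl a _ y1)), ?_, ?_⟩
      · rw [CC.add_apply, conj_apply]
        have h4 : tot (0 : I → ZMod 2) = 0 := by simp [tot]
        rw [h4, Pi.zero_apply, add_zero, ep_zero, one_mul]
        have h5 : y 0 + y 0 = 2 * y 0 := by ring
        rw [h5]
        exact mul_ne_zero h2 y2
      · intro g hg i hi
        rw [CC.add_apply, conj_apply] at hg
        have h4 : y g ≠ 0 := fun h => hg (by rw [h]; ring)
        rcases mem_insert.1 hi with rfl | hi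
        · rcases zm (tot g + g i) with h5 | h5
          · exact h5
          · exfalso
            apply hg
            rw [h5, ep_one]
            ring
        · exact y3 g h4 i hi
  obtain ⟨y, y1, y2, y3⟩ := key univ
  have h4 : y = y 0 • (1 : CC I F) := by
    ext g
    rw [CC.smul_apply, CC.one_apply]
    split_ifs with h
    · rw [h, mul_one]
    · rw [mul_zero]
      by_contra h5
      exact h (zero_of_tot hev g fun i => y3 g h5 i (mem_univ i))
  have h5 : (1 : CC I F) = (y 0)⁻¹ • y := by
    conv_rhs => rw [h4]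
    rw [CC.smul_apply, smul_smul, CC.one_apply, if_pos rfl, mul_one, inv_mul_cancel₀ y2, one_smul]
  rw [h5]
  exact hs _ _ y1

/-- The centraliser of the generators. -/
theorem scal_of_comm (h2 : (2 : F) ≠ 0) (hev : Even (Fintype.card I)) (x : CC I F)
    (h : ∀ i, e i * x = x * e i) : x = x 0 • (1 : CC I F) := by
  have h1 : ∀ i k, ep (tot k + k i) * x k = x k := by
    intro i k
    rw [← conj_apply, h i, mul_assoc, e_sq, mul_one]
  ext g
  rw [CC.smul_apply, CC.one_apply]
  split_ifs with h3
  · rw [h3, mul_one]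
  · rw [mul_zero]
    by_contra h5
    apply h3
    refine zero_of_tot hev g fun i => ep_eq_one h2 ?_
    have h6 := h1 i g
    exact mul_right_cancel₀ h5 (by rw [h6, one_mul])

/-- Intertwining elements exist. -/
theorem exists_int (hev : Even (Fintype.card I)) (f : I → CC I F)
    (hf : ∀ i, f i * f i = 1) (hff : ∀ i j, i ≠ j → f i * f j = -(f j * f i)) :
    ∃ u : CC I F, u ≠ 0 ∧ ∀ i, f i * u = u * e i := by
  have hone : (1 : CC I F) ≠ 0 := by
    intro h
    have h1 := congrFun h (0 : I → ZMod 2)
    change (1 : CC I F) 0 = (0 : CC I F) 0 at h1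
    rw [CC.one_apply, if_pos rfl, CC.zero_apply] at h1
    exact one_ne_zero h1
  have key : ∀ s : Finset I, ∃ x : CC I F, x ≠ 0 ∧
      ∀ i ∈ s, f i * x * e i = x ∨ f i * x * e i = -x := by
    intro s
    induction s using Finset.induction_on with
    | empty => exact ⟨1, hone, fun i hi => absurd hi (Finset.notMem_empty i)⟩
    | insert a s ha ih =>
      obtain ⟨x, x1, x2⟩ := ih
      by_cases h0 : x + f a * x * e a = 0
      · refine ⟨x, x1, fun i hi => ?_⟩
        rcases mem_insert.1 hi with rfl | hi
        · exact Or.inr (eq_neg_of_add_eq_zero_right h0)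
        · exact x2 i hi
      · refine ⟨_, h0, fun i hi => ?_⟩
        rcases mem_insert.1 hi with rfl | hi
        · left
          have h3 : f i * (f i * x * e i) * e i = x := by
            rw [mul_assoc (f i) x, ← mul_assoc (f i) (f i), hf, one_mul, mul_assoc, e_sq, mul_one]
          rw [mul_add, add_mul, h3, add_comm]
        · have hne : i ≠ a := fun h => ha (h ▸ hi)
          have h3 : f i * (f a * x * e a) * e i = f a * (f i * x * e i) * e a := by
            calc f i * (f a * x * e a) * e i = (f i * f a) * x * (e a * e i) := by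
                  simp only [mul_assoc]
              _ = -(f a * f i) * x * (-(e i * e a)) := by
                  rw [hff i a hne, e_anti (Ne.symm hne)]
              _ = (f a * f i) * x * (e i * e a) := by
                  rw [neg_mul, neg_mul, mul_neg, neg_neg]
              _ = _ := by simp only [mul_assoc]
          rcases x2 i hi with h4 | h4
          · left
            rw [mul_add, add_mul, h3, h4]
          · right
            rw [mul_add, add_mul, h3, h4, mul_neg, neg_mul, neg_add]
  obtain ⟨x, x1, x2⟩ := key univ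
  have key2 : ∀ s : Finset I, ∃ y : CC I F, y ≠ 0 ∧ (∀ i, f i * y * e i = y ∨
      f i * y * e i = -y) ∧ ∀ i ∈ s, f i * y * e i = y := by
    intro s
    induction s using Finset.induction_on with
    | empty => exact ⟨x, x1, fun i => x2 i (mem_univ i), fun i hi => absurd hi (Finset.notMem_empty i)⟩
    | insert a s ha ih =>
      obtain ⟨y, y1, y2, y3⟩ := ih
      rcases y2 a with h | h
      · refine ⟨y, y1, y2, fun i hi => ?_⟩
        rcases mem_insert.1 hi with rfl | hi
        · exact h
        · exact y3 i hi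
      · let g : I → ZMod 2 := fun i => if i = a then 0 else 1
        have hg : tot g = 1 := by
          have h3 : tot g + tot (Pi.single a (1 : ZMod 2)) = tot (fun _ : I => (1 : ZMod 2)) := by
            rw [← tot_add]
            congr 1
            ext i
            rw [Pi.add_apply]
            change (if i = a then (0 : ZMod 2) else 1) + _ = 1
            by_cases hi : i = a
            · subst hi
              rw [if_pos rfl, Pi.single_eq_same, zero_add]
            · rw [if_neg hi, Pi.single_eq_of_ne hi, add_zero]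
          have h4 : tot (fun _ : I => (1 : ZMod 2)) = 0 := by
            unfold tot
            rw [sum_const, card_univ]
            obtain ⟨m, hm⟩ := hev
            rw [hm, add_smul, CharTwo.add_self_eq_zero]
          rw [tot_single, h4] at h3
          rcases zm (tot g) with h5 | h5
          · rw [h5] at h3
            exact absurd h3 (by decide)
          · exact h5
        have hEi : ∀ i, (E g * e i : CC I F) = (ep (tot g + g i) : F) • (e i * E g) := by
          intro i
          rw [e_mul_E, smul_smul, ep_sq, one_smul]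
        have h3 : ∀ i, f i * (y * E g) * e i =
            (ep (tot g + g i) : F) • ((f i * y * e i) * E g) := by
          intro i
          rw [mul_assoc, mul_assoc y, hEi]
          simp only [mul_smul_comm, mul_assoc]
        have hga : ep (tot g + g a) = (-1 : F) := by
          have h4 : g a = 0 := if_pos rfl
          rw [hg, h4, add_zero, ep_one]
        have hgi : ∀ i, i ≠ a → ep (tot g + g i) = (1 : F) := by
          intro i hi
          have h4 : g i = 1 := if_neg hi
          rw [hg, h4, CharTwo.add_self_eq_zero, ep_zero]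
        refine ⟨y * E g, ?_, fun i => ?_, fun i hi => ?_⟩
        · intro h4
          have h5 := congrArg (fun z => z * E g) h4
          beta_reduce at h5
          rw [mul_assoc, E_sq, zero_mul, mul_smul_comm, mul_one] at h5
          rcases smul_eq_zero.1 h5 with h6 | h6
          · exact ep_ne0 _ h6
          · exact y1 h6
        · rw [h3]
          by_cases hi : i = a
          · subst hi
            left
            rw [hga, h, neg_mul, neg_smul, one_smul, neg_neg]
          · rw [hgi i hi, one_smul]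
            rcases y2 i with h4 | h4
            · left
              rw [h4]
            · right
              rw [h4, neg_mul]
        · rw [h3]
          rcases mem_insert.1 hi with rfl | hi
          · rw [hga, h, neg_mul, neg_smul, one_smul, neg_neg]
          · have hne : i ≠ a := fun h => ha (h ▸ hi)
            rw [hgi i hne, one_smul, y3 i hi]
  obtain ⟨u, u1, -, u3⟩ := key2 univ
  refine ⟨u, u1, fun i => ?_⟩
  have h3 := congrArg (fun z => z * e i) (u3 i (mem_univ i))
  beta_reduce at h3
  rw [mul_assoc, e_sq, mul_one] at h3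
  exact h3

/-- Intertwining elements are invertible. -/
theorem int_unit (h2 : (2 : F) ≠ 0) (hev : Even (Fintype.card I)) (f : I → CC I F)
    (c : I → I → F) (hc : ∀ i, e i = ∑ j, c i j • f j) (u : CC I F) (hu : u ≠ 0)
    (h : ∀ i, f i * u = u * e i) : ∃ w : (CC I F)ˣ, (w : CC I F) = u := by
  have h1 : ∃ z, (1 : CC I F) = u * z := by
    refine one_in h2 hev (fun x => ∃ z, x = u * z) ?_ ?_ ?_ ?_ ⟨1, (mul_one u).symm⟩ hu
    · rintro x y ⟨z, rfl⟩ ⟨w, rfl⟩
      exact ⟨z + w, (mul_add _ _ _).symm⟩
    · rintro r x ⟨z, rfl⟩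
      exact ⟨r • z, (mul_smul_comm _ _ _).symm⟩
    · rintro i x ⟨z, rfl⟩
      refine ⟨∑ j, c i j • (e j * z), ?_⟩
      rw [hc i, Finset.sum_mul, Finset.mul_sum]
      refine sum_congr rfl fun j _ => ?_
      rw [smul_mul_assoc, mul_smul_comm, ← mul_assoc, h, mul_assoc]
    · rintro i x ⟨z, rfl⟩
      exact ⟨z * e i, mul_assoc _ _ _⟩
  have h3 : ∃ z, (1 : CC I F) = z * u := by
    refine one_in h2 hev (fun x => ∃ z, x = z * u) ?_ ?_ ?_ ?_ ⟨1, (one_mul u).symm⟩ hu
    · rintro x y ⟨z, rfl⟩ ⟨w, rfl⟩
      exact ⟨z + w, (add_mul _ _ _).symm⟩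
    · rintro r x ⟨z, rfl⟩
      exact ⟨r • z, (smul_mul_assoc _ _ _).symm⟩
    · rintro i x ⟨z, rfl⟩
      exact ⟨e i * z, (mul_assoc _ _ _).symm⟩
    · rintro i x ⟨z, rfl⟩
      exact ⟨z * f i, by rw [mul_assoc, mul_assoc, h]⟩
  obtain ⟨v, hv⟩ := h1
  obtain ⟨v', hv'⟩ := h3
  have h4 : v' = v := by
    calc v' = v' * (u * v) := by rw [← hv, mul_one]
      _ = (v' * u) * v := by rw [mul_assoc]
      _ = v := by rw [← hv', one_mul]
  exact ⟨⟨u, v, hv.symm, by rw [← h4]; exact hv'.symm⟩, rfl⟩

/-- Intertwining elements are unique up to factors. -/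
theorem int_unique (h2 : (2 : F) ≠ 0) (hev : Even (Fintype.card I)) (f : I → CC I F)
    (u v : (CC I F)ˣ) (hu : ∀ i, f i * (u : CC I F) = (u : CC I F) * e i)
    (hv : ∀ i, f i * (v : CC I F) = (v : CC I F) * e i) :
    ∃ c : F, c ≠ 0 ∧ (v : CC I F) = c • (u : CC I F) := by
  have h1 : ∀ i, e i * ((↑u⁻¹ : CC I F) * (v : CC I F)) =
      ((↑u⁻¹ : CC I F) * (v : CC I F)) * e i := by
    intro i
    calc e i * ((↑u⁻¹ : CC I F) * (v : CC I F)) =
          (↑u⁻¹ : CC I F) * ((u : CC I F) * e i) * ((↑u⁻¹ : CC I F) * (v : CC I F)) := by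
          rw [← mul_assoc (↑u⁻¹ : CC I F) (u : CC I F), Units.inv_mul, one_mul]
      _ = (↑u⁻¹ : CC I F) * (f i * (u : CC I F)) * ((↑u⁻¹ : CC I F) * (v : CC I F)) := by rw [hu]
      _ = (↑u⁻¹ : CC I F) * (f i * ((u : CC I F) * (↑u⁻¹ : CC I F)) * (v : CC I F)) := by
          simp only [mul_assoc]
      _ = (↑u⁻¹ : CC I F) * (f i * (v : CC I F)) := by rw [Units.mul_inv, mul_one]
      _ = _ := by rw [hv, mul_assoc]
  have h3 := scal_of_comm h2 hev _ h1
  generalize ((↑u⁻¹ : CC I F) * v) 0 = c at h3
  have h4 : (v : CC I F) = c • (u : CC I F) := by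
    calc (v : CC I F) = u * (↑u⁻¹ * v) := by rw [← mul_assoc, Units.mul_inv, one_mul]
      _ = _ := by rw [h3, mul_smul_comm, mul_one]
  refine ⟨c, fun hc => ?_, h4⟩
  rw [hc, zero_smul] at h4
  have h5 : (1 : CC I F) = 0 := by
    rw [← Units.mul_inv v, h4, zero_mul]
  have h6 := congrFun h5 (0 : I → ZMod 2)
  change (1 : CC I F) 0 = (0 : CC I F) 0 at h6
  rw [CC.one_apply, if_pos rfl, CC.zero_apply] at h6
  exact one_ne_zero h6

theorem smul_one_inj {c d : F} (h : c • (1 : CC I F) = d • 1) : c = d := by
  have h6 := congrFun h (0 : I → ZMod 2)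
  change (c • (1 : CC I F)) 0 = (d • (1 : CC I F)) 0 at h6
  rw [CC.smul_apply, CC.smul_apply, CC.one_apply, if_pos rfl, mul_one, mul_one] at h6
  exact h6

theorem CC.one_ne : (1 : CC I F) ≠ 0 := by
  intro h
  have h1 : (1 : F) • (1 : CC I F) = (0 : F) • 1 := by rw [one_smul, zero_smul, h]
  exact one_ne_zero (smul_one_inj h1)

/-- The norm of an intertwining element. -/
theorem int_norm (h2 : (2 : F) ≠ 0) (hev : Even (Fintype.card I)) (f : I → CC I F)
    (hf : ∀ i, tr (f i) = f i) (u : (CC I F)ˣ)
    (hu : ∀ i, f i * (u : CC I F) = (u : CC I F) * e i) :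
    ∃ c : F, c ≠ 0 ∧ tr (u : CC I F) * u = c • (1 : CC I F) := by
  have h1 : ∀ i, tr (u : CC I F) * f i = e i * tr (u : CC I F) := by
    intro i
    have h3 := congrArg tr (hu i)
    rw [tr_mul, tr_mul, hf, tr_e] at h3
    exact h3
  have h3 : ∀ i, e i * (tr (u : CC I F) * (u : CC I F)) =
      (tr (u : CC I F) * (u : CC I F)) * e i := by
    intro i
    rw [← mul_assoc, ← h1, mul_assoc, hu, mul_assoc]
  have h4 := scal_of_comm h2 hev _ h3
  generalize (tr (u : CC I F) * u) 0 = c at h4
  refine ⟨c, fun hc => ?_, h4⟩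
  rw [hc, zero_smul] at h4
  have h5 : tr (u : CC I F) = 0 := by
    calc tr (u : CC I F) = tr (u : CC I F) * (u * ↑u⁻¹) := by rw [Units.mul_inv, mul_one]
      _ = _ := by rw [← mul_assoc, h4, zero_mul]
  have h6 : (u : CC I F) = 0 := by
    rw [← tr_tr (u : CC I F), h5]
    ext g
    rw [tr_apply, CC.zero_apply, mul_zero]
  have h7 : (1 : CC I F) = 0 := by rw [← Units.mul_inv u, h6, zero_mul]
  exact CC.one_ne h7

/-- the twisted generators -/
noncomputable def fA (A : Matrix I I F) (j : I) : CC I F := ∑ i, A i j • e i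

theorem e_sum (a b : I → F) :
    (∑ i, a i • (e i : CC I F)) * (∑ i, b i • e i) + (∑ i, b i • e i) * (∑ i, a i • e i) =
      (2 * ∑ i, a i * b i) • (1 : CC I F) := by
  rw [Finset.sum_mul_sum, Finset.sum_mul_sum, Finset.sum_comm (f := fun i j =>
    b i • (e i : CC I F) * a j • e j), ← sum_add_distrib]
  have h1 : ∀ i, (∑ j, (a i • (e i : CC I F)) * (b j • e j) +
      ∑ j, (b j • (e j : CC I F)) * (a i • e i)) = (2 * (a i * b i)) • (1 : CC I F) := by
    intro i
    rw [← sum_add_distrib, sum_eq_single i]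
    · rw [smul_mul_smul_comm, smul_mul_smul_comm, e_sq, ← add_smul]
      congr 1
      ring
    · intro j _ hj
      rw [smul_mul_smul_comm, smul_mul_smul_comm, e_anti hj, smul_neg, mul_comm (b j),
        add_neg_cancel]
    · intro h
      exact absurd (mem_univ i) h
  rw [sum_congr rfl fun i _ => h1 i, ← Finset.sum_smul, ← Finset.mul_sum]

theorem fA_sq (h2 : (2 : F) ≠ 0) {A : Matrix I I F} (hA : A.transpose * A = 1) (j : I) :
    fA A j * fA A j = 1 := by
  have h1 := e_sum (I := I) (F := F) (fun i => A i j) (fun i => A i j)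
  have h3 : ∑ i, A i j * A i j = 1 := by
    have h4 := congrFun (congrFun hA j) j
    rw [Matrix.mul_apply, Matrix.one_apply_eq] at h4
    exact h4
  rw [h3, mul_one, ← two_smul F, smul_right_injective _ h2 |>.eq_iff] at h1
  exact h1

theorem fA_anti {A : Matrix I I F} (hA : A.transpose * A = 1) {j k : I} (h : j ≠ k) :
    fA A j * fA A k = -(fA A k * fA A j) := by
  have h1 := e_sum (I := I) (F := F) (fun i => A i j) (fun i => A i k)
  have h3 : ∑ i, A i j * A i k = 0 := by
    have h4 := congrFun (congrFun hA j) k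
    rw [Matrix.mul_apply, Matrix.one_apply_ne h] at h4
    exact h4
  rw [h3, mul_zero, zero_smul] at h1
  exact eq_neg_of_add_eq_zero_left h1

theorem fA_tr (A : Matrix I I F) (j : I) : tr (fA A j) = fA A j := by
  unfold fA
  rw [tr_sum]
  refine sum_congr rfl fun i _ => ?_
  rw [tr_smul, tr_e]

theorem fA_gen {A : Matrix I I F} (hA : A.transpose * A = 1) (i : I) :
    (e i : CC I F) = ∑ j, A i j • fA A j := by
  have h1 : A * A.transpose = 1 := mul_eq_one_comm.1 hA
  unfold fA
  simp only [Finset.smul_sum, smul_smul]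
  rw [Finset.sum_comm]
  have h3 : ∀ l, ∑ j, (A i j * A l j) • (e l : CC I F) = (if i = l then (1 : F) else 0) • e l := by
    intro l
    rw [← Finset.sum_smul]
    congr 1
    have h4 := congrFun (congrFun h1 i) l
    rw [Matrix.mul_apply, Matrix.one_apply] at h4
    exact h4
  rw [sum_congr rfl fun l _ => h3 l, sum_eq_single i]
  · rw [if_pos rfl, one_smul]
  · intro b _ hb
    rw [if_neg (Ne.symm hb), zero_smul]
  · intro h
    exact absurd (mem_univ i) h

/-- The intertwining element of an orthogonal matrix. -/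
theorem exists_u (h2 : (2 : F) ≠ 0) (hev : Even (Fintype.card I)) {A : Matrix I I F}
    (hA : A.transpose * A = 1) : ∃ u : (CC I F)ˣ,
      ∀ j, fA A j * (u : CC I F) = (u : CC I F) * e j := by
  obtain ⟨u, h1, h3⟩ := exists_int hev (fA A) (fA_sq h2 hA) fun i j h => fA_anti hA h
  obtain ⟨w, rfl⟩ := int_unit h2 hev (fA A) A (fA_gen hA) u h1 h3
  exact ⟨w, h3⟩

theorem exists_u_norm [IsAlgClosed F] (h2 : (2 : F) ≠ 0) (hev : Even (Fintype.card I))
    {A : Matrix I I F} (hA : A.transpose * A = 1) :
    ∃ u : (CC I F)ˣ, (∀ j, fA A j * (u : CC I F) = (u : CC I F) * e j) ∧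
      tr (u : CC I F) * (u : CC I F) = 1 := by
  obtain ⟨u, hu⟩ := exists_u h2 hev hA
  obtain ⟨c, hc, h3⟩ := int_norm h2 hev (fA A) (fA_tr A) u hu
  obtain ⟨d, hd⟩ := IsAlgClosed.exists_pow_nat_eq c (n := 2) (by norm_num)
  have hd0 : d ≠ 0 := by
    rintro rfl
    exact hc (by rw [← hd]; ring)
  let D : (CC I F)ˣ := ⟨d⁻¹ • 1, d • 1, by
    rw [smul_mul_smul_comm, inv_mul_cancel₀ hd0, one_smul, mul_one], by
    rw [smul_mul_smul_comm, mul_inv_cancel₀ hd0, one_smul, mul_one]⟩
  have hD : ((u * D : (CC I F)ˣ) : CC I F) = d⁻¹ • (u : CC I F) := by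
    change (u : CC I F) * (d⁻¹ • 1) = _
    rw [mul_smul_comm, mul_one]
  refine ⟨u * D, fun j => ?_, ?_⟩
  · rw [hD, mul_smul_comm, hu, smul_mul_assoc]
  · rw [hD, tr_smul, smul_mul_smul_comm, h3, smul_smul, ← hd]
    have h4 : d⁻¹ * d⁻¹ * d ^ 2 = 1 := by
      field_simp
    rw [h4, one_smul]

end field

end Pool.Agent.K7.H53.DB
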