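import Pool.Agent.K7.H53.DB.Defs
import Pool.Agent.K7.H53.DB.Int
import Pool.Agent.K7.H53.MA.Alt
import Pool.Agent.Y60.DC.LocS
import Pool.Agent.TH444.TW.Cls

/-!
# The double cover of the alternating group: properties
-/

set_option autoImplicit false
set_option linter.unusedSectionVars false

open Finset Equiv

namespace Pool.Agent.K7.H53.DB

section refl

variable {I F : Type} [Fintype I] [DecidableEq I] [Field F]

/-- a reflection -/
noncomputable def rf (a b : I) : CC I F := e a - e b

theorem rf_sq {a b : I} (h : a ≠ b) : (rf a b * rf a b : CC I F) = (2 : F) • 1 := by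
  unfold rf
  rw [mul_sub, sub_mul, sub_mul, e_sq, e_sq, e_anti h, two_smul]
  abel

theorem tr_rf (a b : I) : tr (rf a b : CC I F) = rf a b := by
  have h1 : (rf a b : CC I F) = e a + (-1 : F) • e b := by
    unfold rf
    rw [neg_smul, one_smul, sub_eq_add_neg]
  rw [h1, tr_add, tr_smul, tr_e, tr_e]

theorem rf_e {a b : I} (h : a ≠ b) (i : I) :
    (rf a b * e i : CC I F) = -(e (swap a b i) * rf a b) := by
  unfold rf
  by_cases h1 : i = a
  · subst h1
    rw [swap_apply_left, sub_mul, mul_sub, e_sq, e_sq]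
    abel
  · by_cases h2 : i = b
    · subst h2
      rw [swap_apply_right, sub_mul, mul_sub, e_sq, e_sq]
      abel
    · rw [swap_apply_of_ne_of_ne h1 h2, sub_mul, mul_sub, e_anti (Ne.symm h1), e_anti (Ne.symm h2)]
      abel

theorem rf_rf {a b c d : I} (h : c ≠ d) (hac : a ≠ c) (had : a ≠ d) (hbc : b ≠ c) (hbd : b ≠ d) :
    (rf c d * rf a b : CC I F) = -(rf a b * rf c d) := by
  have h1 : (rf a b : CC I F) = e a - e b := rfl
  rw [h1, mul_sub, rf_e h, rf_e h, swap_apply_of_ne_of_ne hac had, swap_apply_of_ne_of_ne hbc hbd,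
    sub_mul]
  abel

/-- Elements over all permutations. -/
theorem exists_rf (h2 : (2 : F) ≠ 0) (π : Perm I) : ∃ r : CC I F,
    (∀ i, r * e i = (((Perm.sign π : ℤˣ) : ℤ) : F) • (e (π i) * r)) ∧
    tr r * r = (if Perm.sign π = 1 then (1 : F) else 2) • 1 ∧
    r * tr r = (if Perm.sign π = 1 then (1 : F) else 2) • 1 := by
  refine Perm.swap_induction_on π ?_ ?_
  · refine ⟨1, fun i => ?_, ?_, ?_⟩
    · rw [Perm.sign_one, Units.val_one, Int.cast_one, one_smul, one_mul, mul_one]
      rfl
    · rw [Perm.sign_one, if_pos rfl, tr_one, one_mul, one_smul]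
    · rw [Perm.sign_one, if_pos rfl, tr_one, one_mul, one_smul]
  · rintro f x y hxy ⟨r, h3, h4, h5⟩
    have hs : Perm.sign (swap x y * f) = -Perm.sign f := by
      rw [Perm.sign_mul, Perm.sign_swap hxy, neg_one_mul]
    let c : F := if Perm.sign f = 1 then 1 else 2⁻¹
    have hcomm : ∀ i, rf x y * r * e i =
        (((Perm.sign (swap x y * f) : ℤˣ) : ℤ) : F) •
          (e ((swap x y * f) i) * (rf x y * r)) := by
      intro i
      rw [mul_assoc, h3, hs, Units.val_neg, Int.cast_neg, neg_smul, mul_smul_comm, ← mul_assoc,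
        rf_e hxy, neg_mul, smul_neg, mul_assoc]
      rfl
    refine ⟨c • (rf x y * r), fun i => ?_, ?_, ?_⟩
    · rw [smul_mul_assoc, hcomm, mul_smul_comm, smul_comm]
    · rw [tr_smul, tr_mul, tr_rf, smul_mul_smul_comm]
      have h6 : tr r * rf x y * (rf x y * r) = (2 : F) • (tr r * r) := by
        rw [mul_assoc, ← mul_assoc (rf x y) (rf x y), rf_sq hxy, smul_mul_assoc, one_mul,
          mul_smul_comm]
      rw [h6, h4, smul_smul, smul_smul, hs]
      congr 1
      rcases Int.units_eq_one_or (Perm.sign f) with h | h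
      · simp only [c, h]
        simp
      · simp only [c, h]
        simp [h2]
    · rw [tr_smul, tr_mul, tr_rf, smul_mul_smul_comm]
      have h6 : rf x y * r * (tr r * rf x y) =
          ((if Perm.sign f = 1 then (1 : F) else 2) * 2) • (1 : CC I F) := by
        rw [mul_assoc, ← mul_assoc r, h5, smul_mul_assoc, one_mul, mul_smul_comm, rf_sq hxy,
          smul_smul]
      rw [h6, smul_smul, hs]
      congr 1
      rcases Int.units_eq_one_or (Perm.sign f) with h | h
      · simp only [c, h]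
        simp
      · simp only [c, h]
        simp
        field_simp

/-- Elements over even permutations. -/
theorem exists_even (h2 : (2 : F) ≠ 0) (π : Perm I) (h : Perm.sign π = 1) :
    ∃ w : (CC I F)ˣ, IsLift (w : CC I F) π ∧ tr (w : CC I F) * (w : CC I F) = 1 := by
  obtain ⟨r, h3, h4, h5⟩ := exists_rf h2 π
  rw [h, if_pos rfl, one_smul] at h4 h5
  refine ⟨⟨r, tr r, h5, h4⟩, fun i => ?_, h4⟩
  have h6 := h3 i
  rw [h, Units.val_one, Int.cast_one, one_smul] at h6
  exact h6

/-- the matrix of a permutation -/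
def pm (π : Perm I) : Matrix I I F := fun i j => if i = π j then 1 else 0

theorem pm_orth (π : Perm I) : (pm π : Matrix I I F).transpose * pm π = 1 := by
  ext j k
  rw [Matrix.mul_apply, sum_eq_single (π j)]
  · rw [Matrix.transpose_apply, Matrix.one_apply]
    unfold pm
    rw [if_pos rfl, one_mul]
    by_cases h : j = k
    · rw [if_pos h, if_pos (by rw [h])]
    · rw [if_neg h, if_neg (fun h' => h (π.injective h'))]
  · intro b _ hb
    rw [Matrix.transpose_apply]
    unfold pm
    rw [if_neg hb, zero_mul]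
  · intro h
    exact absurd (mem_univ _) h

theorem fA_pm (π : Perm I) (j : I) : fA (pm π : Matrix I I F) j = e (π j) := by
  unfold fA pm
  rw [sum_eq_single (π j)]
  · rw [if_pos rfl, one_smul]
  · intro b _ hb
    rw [if_neg hb, zero_smul]
  · intro h
    exact absurd (mem_univ _) h

/-- Elements over all permutations. -/
theorem exists_lift (h2 : (2 : F) ≠ 0) (hev : Even (Fintype.card I)) (π : Perm I) :
    ∃ w : (CC I F)ˣ, IsLift (w : CC I F) π := by
  obtain ⟨u, hu⟩ := exists_u h2 hev (pm_orth π)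
  refine ⟨u, fun i => ?_⟩
  rw [← hu, fA_pm]

theorem lift_unique (h2 : (2 : F) ≠ 0) (hev : Even (Fintype.card I)) {π : Perm I}
    {u v : (CC I F)ˣ} (hu : IsLift (u : CC I F) π) (hv : IsLift (v : CC I F) π) :
    ∃ c : F, c ≠ 0 ∧ (v : CC I F) = c • (u : CC I F) :=
  int_unique h2 hev (fun i => e (π i)) u v (fun i => (hu i).symm) fun i => (hv i).symm

theorem lift_norm (h2 : (2 : F) ≠ 0) (hev : Even (Fintype.card I)) {π : Perm I}
    {u : (CC I F)ˣ} (hu : IsLift (u : CC I F) π) :
    ∃ c : F, c ≠ 0 ∧ tr (u : CC I F) * (u : CC I F) = c • (1 : CC I F) :=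
  int_norm h2 hev (fun i => e (π i)) (fun _ => tr_e _) u fun i => (hu i).symm

end refl

theorem card_II (n : ℕ) : Even (Fintype.card (II n)) := by
  rw [Fintype.card_option, Fintype.card_sum, Fintype.card_fin, Fintype.card_fin]
  rcases Nat.even_or_odd n with ⟨m, hm⟩ | ⟨m, hm⟩
  · exact ⟨m + 1, by omega⟩
  · exact ⟨m + 1, by omega⟩

theorem card_JJ (n : ℕ) : Odd (Fintype.card (JJ n)) := by
  rw [Fintype.card_sum, Fintype.card_fin, Fintype.card_fin]
  rcases Nat.even_or_odd n with ⟨m, hm⟩ | ⟨m, hm⟩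
  · exact ⟨m, by omega⟩
  · exact ⟨m, by omega⟩

theorem ph_apply (n : ℕ) (σ : Perm (Fin n)) (i : Fin n) :
    ph n σ (some (Sum.inl i)) = some (Sum.inl (σ i)) := rfl

theorem ph_inj (n : ℕ) : Function.Injective (ph n) := by
  intro σ τ h
  ext i : 1
  have h1 := DFunLike.congr_fun h (some (Sum.inl i))
  rw [ph_apply, ph_apply] at h1
  exact Sum.inl_injective (Option.some_injective _ h1)

theorem sign_ps (n : ℕ) (σ : Perm (Fin n)) : Perm.sign (ps n σ) = Perm.sign σ := by
  change Perm.sign (Equiv.sumCongr σ 1) = _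
  rw [Perm.sign_sumCongr, Perm.sign_one, mul_one]

theorem sign_ph (n : ℕ) (σ : Perm (Fin n)) : Perm.sign (ph n σ) = Perm.sign σ := by
  change Perm.sign (Equiv.optionCongr (ps n σ)) = _
  rw [Equiv.optionCongr_sign, sign_ps]

section grp

variable (n : ℕ) (F : Type) [Field F]

theorem exists_pi (w : TA n F) : ∃ π : alternatingGroup (Fin n),
    IsLift ((w : (CC (II n) F)ˣ) : CC (II n) F) (ph n π) := by
  obtain ⟨w, -, π, h1, h2⟩ := w
  exact ⟨⟨π, h1⟩, h2⟩

/-- the projection -/
noncomputable def rh : TA n F →* alternatingGroup (Fin n) :=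
  MonoidHom.mk' (fun w => (exists_pi n F w).choose) fun w v => by
    apply Subtype.ext
    apply ph_inj n
    refine (exists_pi n F (w * v)).choose_spec.unique ?_
    have h1 := (exists_pi n F w).choose_spec.mul (exists_pi n F v).choose_spec
    rw [Subgroup.coe_mul, Subgroup.coe_mul, map_mul]
    exact h1

theorem rh_spec (w : TA n F) :
    IsLift ((w : (CC (II n) F)ˣ) : CC (II n) F) (ph n (rh n F w)) :=
  (exists_pi n F w).choose_spec

theorem rh_unique (w : TA n F) (π : Perm (Fin n))
    (h : IsLift ((w : (CC (II n) F)ˣ) : CC (II n) F) (ph n π)) : (rh n F w : Perm (Fin n)) = π :=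
  ph_inj n ((rh_spec n F w).unique h)

variable {F}

theorem rh_surj (h2 : (2 : F) ≠ 0) : Function.Surjective (rh n F) := by
  intro π
  obtain ⟨w, h3, h4⟩ := exists_even (F := F) h2 (ph n π) (by
    rw [sign_ph]
    exact Perm.mem_alternatingGroup.1 π.2)
  refine ⟨⟨w, h4, π, π.2, h3⟩, Subtype.ext ?_⟩
  exact rh_unique n F _ _ h3

/-- the element `-1` -/
noncomputable def neg1 : TA n F := ⟨-1, by
  rw [Units.val_neg, Units.val_one]
  have h1 : (-1 : CC (II n) F) = (-1 : F) • 1 := by rw [neg_smul, one_smul]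
  rw [h1, tr_smul, tr_one, smul_mul_smul_comm, one_mul, neg_mul_neg, one_mul, one_smul], 1,
  one_mem _, by
    rw [Units.val_neg, Units.val_one, map_one]
    exact IsLift.one.neg⟩

theorem neg1_val : ((neg1 n : TA n F) : (CC (II n) F)ˣ) = -1 := rfl

theorem neg1_sq : (neg1 n : TA n F) * neg1 n = 1 := by
  apply Subtype.ext
  change (-1 : (CC (II n) F)ˣ) * -1 = 1
  rw [neg_mul_neg, one_mul]

theorem neg1_ne (h2 : (2 : F) ≠ 0) : (neg1 n : TA n F) ≠ 1 := by
  intro h
  have h1 := congrArg (fun w : TA n F => ((w : (CC (II n) F)ˣ) : CC (II n) F)) h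
  change (-1 : CC (II n) F) = 1 at h1
  have h3 : (-1 : F) • (1 : CC (II n) F) = (1 : F) • 1 := by
    rw [neg_smul, one_smul]
    exact h1
  have h4 := smul_one_inj h3
  apply h2
  linear_combination -h4

theorem neg1_comm (w : TA n F) : w * neg1 n = neg1 n * w := by
  apply Subtype.ext
  change (w : (CC (II n) F)ˣ) * -1 = -1 * (w : (CC (II n) F)ˣ)
  rw [mul_neg, neg_mul, mul_one, one_mul]

theorem rh_neg1 : rh n F (neg1 n) = 1 := by
  apply Subtype.ext
  apply rh_unique
  change IsLift (-1 : CC (II n) F) _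
  rw [OneMemClass.coe_one, map_one]
  exact IsLift.one.neg

/-- Elements of the group with the same image. -/
theorem eq_or_neg (h2 : (2 : F) ≠ 0) (w v : TA n F) (h : rh n F w = rh n F v) :
    w = v ∨ w = neg1 n * v := by
  have h1 := rh_spec n F w
  rw [h] at h1
  obtain ⟨c, hc, h3⟩ := lift_unique h2 (card_II n) (rh_spec n F v) h1
  have h4 := w.2.1
  rw [h3, tr_smul, smul_mul_smul_comm, v.2.1] at h4
  have h5 : c * c = 1 := smul_one_inj (by rw [h4, one_smul])
  rcases mul_self_eq_one_iff.1 h5 with h6 | h6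
  · left
    apply Subtype.ext
    apply Units.ext
    rw [h3, h6, one_smul]
  · right
    apply Subtype.ext
    apply Units.ext
    change _ = ((-1 * (v : (CC (II n) F)ˣ) : (CC (II n) F)ˣ) : CC (II n) F)
    rw [h3, h6, neg_smul, one_smul, neg_one_mul, Units.val_neg]

theorem ker_rh (h2 : (2 : F) ≠ 0) (w : TA n F) : rh n F w = 1 ↔ w = 1 ∨ w = neg1 n := by
  constructor
  · intro h
    have h1 := eq_or_neg n h2 w 1 (by rw [h, map_one])
    rwa [mul_one] at h1
  · rintro (rfl | rfl)
    · exact map_one _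
    · exact rh_neg1 n

/-- The element `-1` is a square of an element over a double transposition. -/
theorem exists_sq (h2 : (2 : F) ≠ 0) (h4 : 4 ≤ n) : ∃ w : TA n F, w * w = neg1 n := by
  let a : Fin n := ⟨0, by omega⟩
  let b : Fin n := ⟨1, by omega⟩
  let c : Fin n := ⟨2, by omega⟩
  let d : Fin n := ⟨3, by omega⟩
  have hab : a ≠ b := by simp [a, b, Fin.ext_iff]
  have hcd : c ≠ d := by simp [c, d, Fin.ext_iff]
  have hac : a ≠ c := by simp [a, c, Fin.ext_iff]
  have had : a ≠ d := by simp [a, d, Fin.ext_iff]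
  have hbc : b ≠ c := by simp [b, c, Fin.ext_iff]
  have hbd : b ≠ d := by simp [b, d, Fin.ext_iff]
  have key : ∀ {x y : Fin n}, x ≠ y → (some (Sum.inl x) : II n) ≠ some (Sum.inl y) :=
    fun h h' => h (Sum.inl_injective (Option.some_injective _ h'))
  let A : CC (II n) F := rf (some (Sum.inl a)) (some (Sum.inl b))
  let C : CC (II n) F := rf (some (Sum.inl c)) (some (Sum.inl d))
  have hA : A * A = (2 : F) • 1 := rf_sq (key hab)
  have hC : C * C = (2 : F) • 1 := rf_sq (key hcd)
  have hCA : C * A = -(A * C) := rf_rf (key hcd) (key hac) (key had) (key hbc) (key hbd)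
  have hsw : ∀ x y : Fin n, ph n (swap x y) = swap (some (Sum.inl x)) (some (Sum.inl y)) := by
    intro x y
    ext i : 1
    rcases i with _ | (i | i)
    · rw [swap_apply_of_ne_of_ne (by simp) (by simp)]
      rfl
    · rw [ph_apply]
      by_cases h1 : i = x
      · rw [h1, swap_apply_left, swap_apply_left]
      · by_cases h3 : i = y
        · rw [h3, swap_apply_right, swap_apply_right]
        · rw [swap_apply_of_ne_of_ne h1 h3, swap_apply_of_ne_of_ne (key h1) (key h3)]
    · rw [swap_apply_of_ne_of_ne (by simp) (by simp)]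
      rfl
  have h3 : (2⁻¹ : F) * 2⁻¹ * (2 * 2) = 1 := by field_simp
  have h5 : A * C * (C * A) = (2 * 2 : F) • 1 := by
    rw [mul_assoc, ← mul_assoc C, hC, smul_mul_assoc, one_mul, mul_smul_comm, hA, smul_smul]
  have h6 : C * A * (A * C) = (2 * 2 : F) • 1 := by
    rw [mul_assoc, ← mul_assoc A, hA, smul_mul_assoc, one_mul, mul_smul_comm, hC, smul_smul]
  let w : (CC (II n) F)ˣ := ⟨(2⁻¹ : F) • (A * C), (2⁻¹ : F) • (C * A), by
    rw [smul_mul_smul_comm, h5, smul_smul, h3, one_smul], by
    rw [smul_mul_smul_comm, h6, smul_smul, h3, one_smul]⟩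
  have hw : w ∈ TA n F := by
    refine ⟨?_, swap a b * swap c d, ?_, ?_⟩
    · change tr ((2⁻¹ : F) • (A * C)) * ((2⁻¹ : F) • (A * C)) = 1
      rw [tr_smul, tr_mul, tr_rf, tr_rf, smul_mul_smul_comm]
      change _ • (C * A * (A * C)) = _
      rw [h6, smul_smul, h3, one_smul]
    · rw [Perm.mem_alternatingGroup, Perm.sign_mul, Perm.sign_swap hab, Perm.sign_swap hcd]
      rfl
    · intro i
      change (2⁻¹ : F) • (A * C) * e i = _ * ((2⁻¹ : F) • (A * C))
      rw [map_mul, hsw, hsw, smul_mul_assoc, mul_smul_comm, mul_assoc, rf_e (key hcd), mul_neg,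
        ← mul_assoc, rf_e (key hab), neg_mul, neg_neg, mul_assoc]
      rfl
  refine ⟨⟨w, hw⟩, ?_⟩
  apply Subtype.ext
  apply Units.ext
  change (2⁻¹ : F) • (A * C) * ((2⁻¹ : F) • (A * C)) = -1
  have h7 : A * C * (A * C) = -((2 * 2 : F) • 1) := by
    calc A * C * (A * C) = A * (C * A) * C := by simp only [mul_assoc]
      _ = -(A * A * (C * C)) := by
        rw [hCA]
        simp only [mul_neg, neg_mul, mul_assoc]
      _ = _ := by rw [hA, hC, smul_mul_smul_comm, one_mul]
  rw [smul_mul_smul_comm, h7, smul_neg, smul_smul, h3, one_smul]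

theorem finite_TA (h2 : (2 : F) ≠ 0) : Finite (TA n F) := by
  have h1 : Finite (rh n F).ker := by
    refine Set.Finite.subset (s := {1, neg1 n}) (Set.toFinite _) ?_
    intro w hw
    exact (ker_rh n h2 w).1 hw
  exact Pool.Agent.TH444.TW.finite_of_ker (rh n F)

theorem perfect (h2 : (2 : F) ≠ 0) (h5 : 5 ≤ n) : commutator (TA n F) = ⊤ := by
  have h1 : (commutator (TA n F)).map (rh n F) = ⊤ := by
    rw [commutator_def, Subgroup.map_commutator, Subgroup.map_top_of_surjective _ (rh_surj n h2),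
      ← commutator_def]
    exact commutator_alternatingGroup_eq_top (by rwa [Nat.card_eq_fintype_card, Fintype.card_fin])
  have h3 : ∀ w : TA n F, ∃ v ∈ commutator (TA n F), rh n F v = rh n F w := by
    intro w
    have h4 : rh n F w ∈ (commutator (TA n F)).map (rh n F) := by
      rw [h1]
      exact Subgroup.mem_top _
    exact h4
  have h6 : (neg1 n : TA n F) ∈ commutator (TA n F) := by
    obtain ⟨w, hw⟩ := exists_sq n (F := F) h2 (by omega)
    obtain ⟨v, hv, h7⟩ := h3 w
    have h8 : v * v = neg1 n := by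
      rcases eq_or_neg n h2 v w h7 with h | h
      · rw [h, hw]
      · rw [h, mul_assoc, ← mul_assoc w, neg1_comm, mul_assoc, ← mul_assoc, neg1_sq, one_mul, hw]
    rw [← h8]
    exact mul_mem hv hv
  rw [eq_top_iff]
  intro w _
  obtain ⟨v, hv, h7⟩ := h3 w
  rcases eq_or_neg n h2 w v h7.symm with h | h
  · rw [h]
    exact hv
  · rw [h]
    exact mul_mem h6 hv

theorem center_TA (h2 : (2 : F) ≠ 0) (h5 : 5 ≤ n) (w : TA n F) :
    w ∈ Subgroup.center (TA n F) ↔ rh n F w = 1 := by
  constructor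
  · intro h
    have hc : Subgroup.center (alternatingGroup (Fin n)) = ⊥ :=
      alternatingGroup.center_eq_bot (by
        rw [Nat.card_eq_fintype_card, Fintype.card_fin]
        omega)
    have h3 : rh n F w ∈ Subgroup.center (alternatingGroup (Fin n)) := by
      rw [Subgroup.mem_center_iff]
      intro g
      obtain ⟨v, rfl⟩ := rh_surj n h2 g
      rw [← map_mul, ← map_mul, Subgroup.mem_center_iff.1 h v]
    rw [hc] at h3
    exact Subgroup.mem_bot.1 h3
  · intro h
    rw [Subgroup.mem_center_iff]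
    intro g
    rcases (ker_rh n h2 w).1 h with rfl | rfl
    · rw [mul_one, one_mul]
    · exact neg1_comm n g

end grp

end Pool.Agent.K7.H53.DB
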