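import Pool.Agent.K7.H53.DB.Grp

/-!
# The automorphisms of the double cover
-/

set_option autoImplicit false
set_option linter.unusedSectionVars false

open Finset Equiv

namespace Pool.Agent.K7.H53.DB

open Pool.Agent.Y60.DC (aut_eq_of_quo quoAut quoAut_mk)

section gen

variable {I F : Type} [Fintype I] [DecidableEq I] [Field F]

/-- Conjugation does not depend on the factor. -/
theorem conj_scal {W W' : (CC I F)ˣ} {c : F} (h : (W' : CC I F) = c • (W : CC I F))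
    (x : (CC I F)ˣ) : W'⁻¹ * x * W' = W⁻¹ * x * W := by
  have h1 : ∀ y : CC I F, ((W' * W⁻¹ : (CC I F)ˣ) : CC I F) * y = y * (W' * W⁻¹ : (CC I F)ˣ) := by
    intro y
    rw [Units.val_mul, h, smul_mul_assoc, Units.mul_inv, smul_mul_assoc, one_mul, mul_smul_comm,
      mul_one]
  have h3 : (W' * W⁻¹) * x = x * (W' * W⁻¹) := Units.ext (h1 x)
  have h4 : W' = (W' * W⁻¹) * W := by rw [inv_mul_cancel_right]
  generalize W' * W⁻¹ = z at h3 h4
  rw [h4, mul_inv_rev]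
  calc W⁻¹ * z⁻¹ * x * (z * W) = W⁻¹ * (z⁻¹ * (x * z)) * W := by simp only [mul_assoc]
    _ = W⁻¹ * (z⁻¹ * (z * x)) * W := by rw [h3]
    _ = _ := by rw [inv_mul_cancel_left]

theorem conj_scal' {W W' : (CC I F)ˣ} {c : F} (h : (W' : CC I F) = c • (W : CC I F))
    (x : (CC I F)ˣ) : W' * x * W'⁻¹ = W * x * W⁻¹ := by
  have h1 := conj_scal h (W * x * W⁻¹)
  have h3 : W⁻¹ * (W * x * W⁻¹) * W = x := by group
  rw [h3] at h1
  have h5 : W' * (W'⁻¹ * (W * x * W⁻¹) * W') * W'⁻¹ = W * x * W⁻¹ := by group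
  rwa [h1] at h5

/-- The norm of the inverse. -/
theorem tr_inv {b : (CC I F)ˣ} {c : F} (hc : c ≠ 0)
    (h : tr (b : CC I F) * (b : CC I F) = c • (1 : CC I F)) :
    tr ((b⁻¹ : (CC I F)ˣ) : CC I F) * ((b⁻¹ : (CC I F)ˣ) : CC I F) = c⁻¹ • (1 : CC I F) := by
  have h1 : ((b⁻¹ : (CC I F)ˣ) : CC I F) = c⁻¹ • tr (b : CC I F) := by
    calc (↑b⁻¹ : CC I F) = c⁻¹ • ((tr (b : CC I F) * (b : CC I F)) * (↑b⁻¹ : CC I F)) := by
          rw [h, smul_mul_assoc, one_mul, smul_smul, inv_mul_cancel₀ hc, one_smul]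
      _ = _ := by rw [mul_assoc, Units.mul_inv, mul_one]
  have h3 : tr ((b⁻¹ : (CC I F)ˣ) : CC I F) = c⁻¹ • (b : CC I F) := by
    rw [h1, tr_smul, tr_tr]
  rw [h3, smul_mul_assoc, Units.mul_inv]

end gen

section act

variable (n : ℕ) {F : Type} [Field F]

theorem conj_mem (h2 : (2 : F) ≠ 0) {W : (CC (II n) F)ˣ} {τ : Perm (Fin n)}
    (hW : IsLift (W : CC (II n) F) (ph n τ)) {a : (CC (II n) F)ˣ} (ha : a ∈ TA n F) :
    W * a * W⁻¹ ∈ TA n F := by
  obtain ⟨h1, π, h3, h4⟩ := ha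
  obtain ⟨c, hc, h5⟩ := lift_norm h2 (card_II n) hW
  refine ⟨?_, τ * π * τ⁻¹, ?_, ?_⟩
  · rw [Units.val_mul, Units.val_mul, tr_mul, tr_mul]
    calc tr (↑W⁻¹ : CC (II n) F) * (tr (a : CC (II n) F) * tr (W : CC (II n) F)) *
          ((W : CC (II n) F) * (a : CC (II n) F) * (↑W⁻¹ : CC (II n) F)) =
        tr (↑W⁻¹ : CC (II n) F) * (tr (a : CC (II n) F) *
          (tr (W : CC (II n) F) * (W : CC (II n) F)) * (a : CC (II n) F)) *
          (↑W⁻¹ : CC (II n) F) := by simp only [mul_assoc]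
      _ = c • (tr (↑W⁻¹ : CC (II n) F) * (↑W⁻¹ : CC (II n) F)) := by
        rw [h5, mul_smul_comm, mul_one, smul_mul_assoc, h1, mul_smul_comm, mul_one, smul_mul_assoc]
      _ = 1 := by rw [tr_inv hc h5, smul_smul, mul_inv_cancel₀ hc, one_smul]
  · rw [Perm.mem_alternatingGroup] at h3 ⊢
    rw [Perm.sign_mul, Perm.sign_mul, h3, mul_one, Perm.sign_inv]
    exact Int.units_mul_self _
  · rw [Units.val_mul, Units.val_mul, map_mul, map_mul, map_inv]
    exact (hW.mul h4).mul hW.inv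

theorem mem_norm (h2 : (2 : F) ≠ 0) {W : (CC (II n) F)ˣ} {τ : Perm (Fin n)}
    (hW : IsLift (W : CC (II n) F) (ph n τ)) : W ∈ Subgroup.normalizer (TA n F : Set _) := by
  rw [Subgroup.mem_normalizer_iff]
  intro h
  refine ⟨fun h1 => conj_mem n h2 hW h1, fun h1 => ?_⟩
  have hW' : IsLift ((W⁻¹ : (CC (II n) F)ˣ) : CC (II n) F) (ph n τ⁻¹) := by
    rw [map_inv]
    exact hW.inv
  have h3 := conj_mem n h2 hW' h1
  have h4 : W⁻¹ * (W * h * W⁻¹) * W⁻¹⁻¹ = h := by group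
  rwa [h4] at h3

/-- a lift of a permutation -/
noncomputable def Wl (h2 : (2 : F) ≠ 0) (τ : Perm (Fin n)) : (CC (II n) F)ˣ :=
  (exists_lift h2 (card_II n) (ph n τ)).choose

theorem Wl_spec (h2 : (2 : F) ≠ 0) (τ : Perm (Fin n)) :
    IsLift (Wl n h2 τ : CC (II n) F) (ph n τ) :=
  (exists_lift h2 (card_II n) (ph n τ)).choose_spec

/-- The action of the permutations. -/
noncomputable def pact (h2 : (2 : F) ≠ 0) : Perm (Fin n) →* MulAut (TA n F) where
  toFun τ := (TA n F).normalizerMonoidHom ⟨Wl n h2 τ, mem_norm n h2 (Wl_spec n h2 τ)⟩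
  map_one' := by
    ext a : 2
    change Wl n h2 1 * (a : (CC (II n) F)ˣ) * (Wl n h2 1)⁻¹ = a
    have h1 := Wl_spec n h2 1
    rw [map_one] at h1
    have h3 : IsLift ((1 : (CC (II n) F)ˣ) : CC (II n) F) 1 := by
      rw [Units.val_one]
      exact IsLift.one
    obtain ⟨c, -, h4⟩ := lift_unique h2 (card_II n) h3 h1
    rw [conj_scal' h4, one_mul, inv_one, mul_one]
  map_mul' τ σ := by
    ext a : 2
    change Wl n h2 (τ * σ) * (a : (CC (II n) F)ˣ) * (Wl n h2 (τ * σ))⁻¹ =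
      Wl n h2 τ * (Wl n h2 σ * (a : (CC (II n) F)ˣ) * (Wl n h2 σ)⁻¹) * (Wl n h2 τ)⁻¹
    have h1 := Wl_spec n h2 (τ * σ)
    rw [map_mul] at h1
    have h3 : IsLift ((Wl n h2 τ * Wl n h2 σ : (CC (II n) F)ˣ) : CC (II n) F)
        (ph n τ * ph n σ) := by
      rw [Units.val_mul]
      exact (Wl_spec n h2 τ).mul (Wl_spec n h2 σ)
    obtain ⟨c, -, h4⟩ := lift_unique h2 (card_II n) h3 h1
    rw [conj_scal' h4]
    group

theorem pact_val (h2 : (2 : F) ≠ 0) (τ : Perm (Fin n)) (a : TA n F) :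
    ((pact n h2 τ a : TA n F) : (CC (II n) F)ˣ) =
      Wl n h2 τ * (a : (CC (II n) F)ˣ) * (Wl n h2 τ)⁻¹ := rfl

theorem rh_pact (h2 : (2 : F) ≠ 0) (τ : Perm (Fin n)) (a : TA n F) :
    (rh n F (pact n h2 τ a) : Perm (Fin n)) = τ * rh n F a * τ⁻¹ := by
  apply rh_unique
  rw [pact_val, Units.val_mul, Units.val_mul, map_mul, map_mul, map_inv]
  exact ((Wl_spec n h2 τ).mul (rh_spec n F a)).mul (Wl_spec n h2 τ).inv

theorem pact_bij (h2 : (2 : F) ≠ 0) (h5 : 5 ≤ n) (h6 : n ≠ 6) :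
    Function.Bijective (pact n (F := F) h2) := by
  constructor
  · rw [injective_iff_map_eq_one]
    intro τ hτ
    apply Pool.Agent.K7.H53.MA.cent_one n (by omega)
    intro k hk
    obtain ⟨a, ha⟩ := rh_surj n (F := F) h2 ⟨k, hk⟩
    have h1 := rh_pact n h2 τ a
    rw [hτ, MulAut.one_apply, ha] at h1
    change k = τ * k * τ⁻¹ at h1
    rw [eq_mul_inv_iff_mul_eq] at h1
    exact h1.symm
  · intro f
    have hc : Subgroup.center (TA n F) = (rh n F).ker := by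
      ext w
      rw [center_TA n h2 h5]
      rfl
    let e : TA n F ⧸ Subgroup.center (TA n F) ≃* alternatingGroup (Fin n) :=
      (QuotientGroup.quotientMulEquivOfEq hc).trans
        (QuotientGroup.quotientKerEquivOfSurjective (rh n F) (rh_surj n h2))
    have he : ∀ a : TA n F, e (QuotientGroup.mk a) = rh n F a := fun a => rfl
    let g : MulAut (alternatingGroup (Fin n)) := (e.symm.trans (quoAut f)).trans e
    obtain ⟨τ, hτ⟩ := Pool.Agent.K7.H53.MA.aut_perm n h5 h6 g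
    refine ⟨τ, ?_⟩
    symm
    refine aut_eq_of_quo (perfect n h2 h5) _ _ fun a => ?_
    apply e.injective
    rw [he, he]
    apply Subtype.ext
    rw [rh_pact, ← hτ]
    change _ = ((e (quoAut f (e.symm (rh n F a))) : alternatingGroup (Fin n)) : Perm (Fin n))
    rw [← he a, MulEquiv.symm_apply_apply, quoAut_mk, he]

end act

end Pool.Agent.K7.H53.DB
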