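import Mathlib

/-!
# The algebra with generators `e_i`, `e_i ^ 2 = 1`, `e_i e_j = - e_j e_i`
-/

set_option autoImplicit false
set_option linter.unusedSectionVars false

open Finset

namespace Pool.Agent.K7.H53.DB

section sign

variable {R S : Type} [CommRing R] [CommRing S]

/-- the character `0 ↦ 1`, `1 ↦ -1` -/
def ep (a : ZMod 2) : R := if a = 0 then 1 else -1

theorem ep_zero : (ep 0 : R) = 1 := if_pos rfl

theorem ep_one : (ep 1 : R) = -1 := if_neg one_ne_zero

theorem zm (a : ZMod 2) : a = 0 ∨ a = 1 := by
  revert a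
  decide

theorem ep_add (a b : ZMod 2) : (ep (a + b) : R) = ep a * ep b := by
  rcases zm a with rfl | rfl <;> rcases zm b with rfl | rfl
  · rw [add_zero, ep_zero, one_mul]
  · rw [zero_add, ep_zero, one_mul]
  · rw [add_zero, ep_zero, mul_one]
  · rw [show (1 : ZMod 2) + 1 = 0 from rfl, ep_zero, ep_one]
    ring

theorem ep_sq (a : ZMod 2) : (ep a : R) * ep a = 1 := by
  rw [← ep_add, CharTwo.add_self_eq_zero, ep_zero]

theorem ep_map (f : R →+* S) (a : ZMod 2) : f (ep a) = ep a := by
  unfold ep
  split_ifs
  · exact map_one f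
  · rw [map_neg, map_one]

end sign

section form

variable {I : Type} [Fintype I] [DecidableEq I]

/-- the number of an element -/
noncomputable def od (i : I) : ℕ := (Fintype.equivFin I i : ℕ)

theorem od_inj : Function.Injective (od : I → ℕ) := fun _ _ h =>
  (Fintype.equivFin I).injective (Fin.ext h)

/-- the bilinear form -/
noncomputable def B (g h : I → ZMod 2) : ZMod 2 :=
  ∑ i, ∑ j, if od j < od i then g i * h j else 0

theorem B_add_left (g g' h : I → ZMod 2) : B (g + g') h = B g h + B g' h := by
  unfold B
  rw [← sum_add_distrib]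
  refine sum_congr rfl fun i _ => ?_
  rw [← sum_add_distrib]
  refine sum_congr rfl fun j _ => ?_
  split_ifs
  · rw [Pi.add_apply, add_mul]
  · rw [add_zero]

theorem B_add_right (g h h' : I → ZMod 2) : B g (h + h') = B g h + B g h' := by
  unfold B
  rw [← sum_add_distrib]
  refine sum_congr rfl fun i _ => ?_
  rw [← sum_add_distrib]
  refine sum_congr rfl fun j _ => ?_
  split_ifs
  · rw [Pi.add_apply, mul_add]
  · rw [add_zero]

theorem B_zero_left (h : I → ZMod 2) : B 0 h = 0 := by
  have h1 := B_add_left 0 0 h
  rw [add_zero] at h1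
  simpa using h1

theorem B_zero_right (h : I → ZMod 2) : B h 0 = 0 := by
  have h1 := B_add_right h 0 0
  rw [add_zero] at h1
  simpa using h1

theorem gg (g : I → ZMod 2) : g + g = 0 := by
  ext i
  exact CharTwo.add_self_eq_zero _

theorem gg1 (g h : I → ZMod 2) : g + (g + h) = h := by
  rw [← add_assoc, gg, zero_add]

/-- the sum of the coordinates -/
def tot (g : I → ZMod 2) : ZMod 2 := ∑ i, g i

theorem tot_add (g h : I → ZMod 2) : tot (g + h) = tot g + tot h := by
  unfold tot
  rw [← sum_add_distrib]
  rfl

theorem B_single_left (i : I) (k : I → ZMod 2) :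
    B (Pi.single i 1) k = ∑ j, if od j < od i then k j else 0 := by
  unfold B
  rw [sum_eq_single i]
  · refine sum_congr rfl fun j _ => ?_
    rw [Pi.single_eq_same, one_mul]
  · intro b _ hb
    refine sum_eq_zero fun j _ => ?_
    rw [Pi.single_eq_of_ne hb, zero_mul, ite_self]
  · intro h
    exact absurd (mem_univ i) h

theorem B_single_right (i : I) (k : I → ZMod 2) :
    B k (Pi.single i 1) = ∑ j, if od i < od j then k j else 0 := by
  unfold B
  refine sum_congr rfl fun j _ => ?_
  rw [sum_eq_single i]
  · rw [Pi.single_eq_same, mul_one]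
  · intro b _ hb
    rw [Pi.single_eq_of_ne hb, mul_zero, ite_self]
  · intro h
    exact absurd (mem_univ i) h

theorem B_swap (i : I) (k : I → ZMod 2) :
    B (Pi.single i 1) k + B k (Pi.single i 1) = tot k + k i := by
  rw [B_single_left, B_single_right, ← sum_add_distrib]
  have h1 : k i = ∑ j, if j = i then k j else 0 := by simp
  unfold tot
  rw [h1, ← sum_add_distrib]
  refine sum_congr rfl fun j _ => ?_
  rcases lt_trichotomy (od j) (od i) with h | h | h
  · have h2 : j ≠ i := fun e => by
      rw [e] at h
      exact lt_irrefl _ h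
    rw [if_pos h, if_neg h.not_gt, if_neg h2]
  · have h2 : j = i := od_inj h
    rw [if_neg (by rw [h]; exact lt_irrefl _), if_neg (by rw [h]; exact lt_irrefl _), if_pos h2]
    exact (CharTwo.add_self_eq_zero _).symm
  · have h2 : j ≠ i := fun e => by
      rw [e] at h
      exact lt_irrefl _ h
    rw [if_pos h, if_neg h.not_gt, if_neg h2, zero_add, add_zero]

theorem B_single_single (i : I) : B (Pi.single i 1) (Pi.single i (1 : ZMod 2)) = 0 := by
  rw [B_single_left]
  refine sum_eq_zero fun j _ => ?_
  split_ifs with h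
  · rw [Pi.single_eq_of_ne]
    intro e
    rw [e] at h
    exact lt_irrefl _ h
  · rfl

end form

/-- The algebra (functions on the vectors over `F_2`). -/
def CC (I R : Type) : Type := (I → ZMod 2) → R

section ring

variable {I R : Type} [Fintype I] [DecidableEq I] [CommRing R]

instance : AddCommGroup (CC I R) := inferInstanceAs (AddCommGroup ((I → ZMod 2) → R))

instance : Module R (CC I R) := inferInstanceAs (Module R ((I → ZMod 2) → R))

theorem CC.add_apply (x y : CC I R) (g : I → ZMod 2) : (x + y) g = x g + y g := rfl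

theorem CC.neg_apply (x : CC I R) (g : I → ZMod 2) : (-x) g = - x g := rfl

theorem CC.sub_apply (x y : CC I R) (g : I → ZMod 2) : (x - y) g = x g - y g := rfl

theorem CC.zero_apply (g : I → ZMod 2) : (0 : CC I R) g = 0 := rfl

theorem CC.smul_apply (c : R) (x : CC I R) (g : I → ZMod 2) : (c • x) g = c * x g := rfl

theorem CC.sum_apply {ι : Type} (s : Finset ι) (f : ι → CC I R) (g : I → ZMod 2) :
    (∑ i ∈ s, f i) g = ∑ i ∈ s, f i g :=
  Finset.sum_apply g s (f : ι → (I → ZMod 2) → R)

@[ext]
theorem CC.ext {x y : CC I R} (h : ∀ g, x g = y g) : x = y := funext h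

noncomputable instance : Mul (CC I R) :=
  ⟨fun x y h => ∑ g, ep (B g (g + h)) * (x g * y (g + h))⟩

theorem CC.mul_apply (x y : CC I R) (h : I → ZMod 2) :
    (x * y) h = ∑ g, ep (B g (g + h)) * (x g * y (g + h)) := rfl

/-- the elements of the basis -/
def E (g : I → ZMod 2) : CC I R := fun h => if h = g then 1 else 0

theorem E_apply (g h : I → ZMod 2) : (E g : CC I R) h = if h = g then 1 else 0 := rfl

theorem E_mul_apply (g h : I → ZMod 2) (x : CC I R) :
    (E g * x : CC I R) h = ep (B g (g + h)) * x (g + h) := by
  rw [CC.mul_apply, sum_eq_single g]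
  · rw [E_apply, if_pos rfl, one_mul]
  · intro b _ hb
    rw [E_apply, if_neg hb, zero_mul, mul_zero]
  · intro h
    exact absurd (mem_univ _) h

theorem mul_E_apply (g h : I → ZMod 2) (x : CC I R) :
    (x * E g : CC I R) h = ep (B (h + g) g) * x (h + g) := by
  rw [CC.mul_apply, sum_eq_single (h + g)]
  · have h1 : h + g + h = g := by rw [add_comm h g, add_assoc, gg, add_zero]
    rw [h1, E_apply, if_pos rfl, mul_one]
  · intro b _ hb
    rw [E_apply, if_neg, mul_zero, mul_zero]
    intro h1
    apply hb
    rw [← h1, add_comm b h, ← add_assoc, gg, zero_add]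
  · intro h
    exact absurd (mem_univ _) h

instance : One (CC I R) := ⟨E 0⟩

theorem CC.one_def : (1 : CC I R) = E 0 := rfl

theorem CC.one_apply (h : I → ZMod 2) : (1 : CC I R) h = if h = 0 then 1 else 0 := rfl

theorem CC.mul_assoc' (x y z : CC I R) : x * y * z = x * (y * z) := by
  ext k
  rw [CC.mul_apply, CC.mul_apply]
  simp only [CC.mul_apply, Finset.mul_sum, Finset.sum_mul]
  rw [Finset.sum_comm]
  refine sum_congr rfl fun g _ => ?_
  rw [← Equiv.sum_comp (Equiv.addLeft g)]
  refine sum_congr rfl fun h _ => ?_
  simp only [Equiv.coe_addLeft]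
  have h1 : g + (g + h) = h := gg1 g h
  have h2 : h + (g + k) = g + h + k := by
    rw [← add_assoc, add_comm h g]
  rw [h1, h2]
  have h3 : (ep (B (g + h) (g + h + k)) * ep (B g h) : R) =
      ep (B g (g + k)) * ep (B h (g + h + k)) := by
    rw [← ep_add, ← ep_add]
    congr 1
    simp only [B_add_left, B_add_right]
    have h4 : (2 : ZMod 2) = 0 := rfl
    linear_combination (B g h) * h4
  linear_combination (x g * y h * z (g + h + k)) * h3

noncomputable instance : Ring (CC I R) :=
  { (inferInstance : AddCommGroup (CC I R)), (inferInstance : Mul (CC I R)),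
    (inferInstance : One (CC I R)) with
    left_distrib := fun x y z => by
      ext h
      rw [CC.add_apply, CC.mul_apply, CC.mul_apply, CC.mul_apply, ← sum_add_distrib]
      refine sum_congr rfl fun g _ => ?_
      rw [CC.add_apply]
      ring
    right_distrib := fun x y z => by
      ext h
      rw [CC.add_apply, CC.mul_apply, CC.mul_apply, CC.mul_apply, ← sum_add_distrib]
      refine sum_congr rfl fun g _ => ?_
      rw [CC.add_apply]
      ring
    zero_mul := fun x => by
      ext h
      rw [CC.mul_apply]
      refine sum_eq_zero fun g _ => ?_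
      rw [CC.zero_apply, zero_mul, mul_zero]
    mul_zero := fun x => by
      ext h
      rw [CC.mul_apply]
      refine sum_eq_zero fun g _ => ?_
      rw [CC.zero_apply, mul_zero, mul_zero]
    mul_assoc := CC.mul_assoc'
    one_mul := fun x => by
      ext h
      rw [CC.one_def, E_mul_apply, zero_add, B_zero_left, ep_zero, one_mul]
    mul_one := fun x => by
      ext h
      rw [CC.one_def, mul_E_apply, add_zero, B_zero_right, ep_zero, one_mul] }

noncomputable instance : Algebra R (CC I R) := Algebra.ofModule
  (fun c x y => by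
    ext h
    rw [CC.smul_apply, CC.mul_apply, CC.mul_apply, Finset.mul_sum]
    refine sum_congr rfl fun g _ => ?_
    rw [CC.smul_apply]
    ring)
  (fun c x y => by
    ext h
    rw [CC.smul_apply, CC.mul_apply, CC.mul_apply, Finset.mul_sum]
    refine sum_congr rfl fun g _ => ?_
    rw [CC.smul_apply]
    ring)

theorem E_mul (g h : I → ZMod 2) : (E g * E h : CC I R) = (ep (B g h) : R) • E (g + h) := by
  ext k
  rw [E_mul_apply, CC.smul_apply, E_apply, E_apply]
  by_cases hk : k = g + h
  · rw [if_pos hk, hk, gg1, if_pos rfl]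
  · rw [if_neg hk, if_neg, mul_zero, mul_zero]
    intro h1
    apply hk
    rw [← h1, gg1]

/-- the generators -/
def e (i : I) : CC I R := E (Pi.single i 1)

theorem e_sq (i : I) : (e i * e i : CC I R) = 1 := by
  unfold e
  rw [E_mul, B_single_single, ep_zero, one_smul, gg]
  rfl

theorem e_mul_E (i : I) (g : I → ZMod 2) :
    (e i * E g : CC I R) = (ep (tot g + g i) : R) • (E g * e i) := by
  unfold e
  rw [E_mul, E_mul, smul_smul, ← B_swap i g, ← ep_add, add_assoc, CharTwo.add_self_eq_zero,
    add_zero, add_comm g]

theorem tot_single (i : I) : tot (Pi.single i (1 : ZMod 2)) = 1 := by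
  unfold tot
  rw [sum_eq_single i]
  · rw [Pi.single_eq_same]
  · intro b _ hb
    rw [Pi.single_eq_of_ne hb]
  · intro h
    exact absurd (mem_univ i) h

theorem e_anti {i j : I} (h : i ≠ j) : (e i * e j : CC I R) = -(e j * e i) := by
  have h1 := e_mul_E (R := R) i (Pi.single j 1)
  rw [tot_single, Pi.single_eq_of_ne h, add_zero, ep_one, neg_smul, one_smul] at h1
  exact h1

/-- the product `e_i x e_i` -/
theorem conj_apply (i : I) (x : CC I R) (k : I → ZMod 2) :
    (e i * x * e i : CC I R) k = ep (tot k + k i) * x k := by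
  unfold e
  rw [mul_E_apply, E_mul_apply]
  have h1 : (Pi.single i 1 : I → ZMod 2) + (k + Pi.single i 1) = k := by
    rw [add_comm k, gg1]
  rw [h1, ← mul_assoc, ← ep_add, ← B_swap i k]
  congr 2
  rw [B_add_left, B_single_single, add_zero, add_comm]

end ring

section map

variable {I R S : Type} [Fintype I] [DecidableEq I] [CommRing R] [CommRing S]

/-- change of the coefficients -/
noncomputable def cmap (f : R →+* S) : CC I R →+* CC I S where
  toFun x := fun g => f (x g)
  map_one' := by
    ext h
    change f ((1 : CC I R) h) = _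
    rw [CC.one_apply, CC.one_apply]
    split_ifs
    · exact map_one f
    · exact map_zero f
  map_zero' := by
    ext h
    exact map_zero f
  map_add' x y := by
    ext h
    exact map_add f _ _
  map_mul' x y := by
    ext h
    change f ((x * y) h) = _
    rw [CC.mul_apply, CC.mul_apply, map_sum]
    refine sum_congr rfl fun g _ => ?_
    rw [map_mul, map_mul, ep_map]

theorem cmap_apply (f : R →+* S) (x : CC I R) (g : I → ZMod 2) : cmap f x g = f (x g) := rfl

theorem cmap_E (f : R →+* S) (g : I → ZMod 2) : cmap f (E g : CC I R) = E g := by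
  ext h
  rw [cmap_apply, E_apply, E_apply]
  split_ifs
  · exact map_one f
  · exact map_zero f

theorem cmap_e (f : R →+* S) (i : I) : cmap f (e i : CC I R) = e i := cmap_E f _

theorem cmap_smul (f : R →+* S) (c : R) (x : CC I R) : cmap f (c • x) = f c • cmap f x := by
  ext h
  exact map_mul f _ _

theorem cmap_inj (f : R →+* S) (hf : Function.Injective f) :
    Function.Injective (cmap f : CC I R →+* CC I S) := by
  intro x y h
  ext g
  apply hf
  have := congrFun h g
  exact this

theorem cmap_comp {T : Type} [CommRing T] (f : R →+* S) (g : S →+* T) (x : CC I R) :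
    cmap g (cmap f x) = cmap (g.comp f) x := rfl

end map

section rev

variable {I R S : Type} [Fintype I] [DecidableEq I] [CommRing R] [CommRing S]

/-- the reversal -/
noncomputable def tr (x : CC I R) : CC I R := fun g => ep (B g g) * x g

theorem tr_apply (x : CC I R) (g : I → ZMod 2) : tr x g = ep (B g g) * x g := rfl

theorem tr_mul (x y : CC I R) : tr (x * y) = tr y * tr x := by
  ext h
  rw [tr_apply, CC.mul_apply, CC.mul_apply, Finset.mul_sum]
  rw [← Equiv.sum_comp (Equiv.addRight h)]
  refine sum_congr rfl fun g _ => ?_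
  simp only [Equiv.coe_addRight]
  have h1 : g + h + h = g := by rw [add_assoc, gg, add_zero]
  rw [h1, tr_apply, tr_apply]
  have h3 : (ep (B h h) * ep (B (g + h) g) : R) =
      ep (B g (g + h)) * (ep (B g g) * ep (B (g + h) (g + h))) := by
    rw [← ep_add, ← ep_add, ← ep_add]
    congr 1
    simp only [B_add_left, B_add_right]
    have h4 : (2 : ZMod 2) = 0 := rfl
    linear_combination (-B g g - B g h) * h4
  linear_combination (x (g + h) * y g) * h3

theorem tr_add (x y : CC I R) : tr (x + y) = tr x + tr y := by
  ext h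
  rw [CC.add_apply, tr_apply, tr_apply, tr_apply, CC.add_apply, mul_add]

theorem tr_smul (c : R) (x : CC I R) : tr (c • x) = c • tr x := by
  ext h
  rw [CC.smul_apply, tr_apply, tr_apply, CC.smul_apply]
  ring

theorem tr_tr (x : CC I R) : tr (tr x) = x := by
  ext h
  rw [tr_apply, tr_apply, ← mul_assoc, ep_sq, one_mul]

theorem tr_one : tr (1 : CC I R) = 1 := by
  ext h
  rw [tr_apply, CC.one_apply]
  split_ifs with h1
  · rw [h1, B_zero_left, ep_zero, one_mul]
  · rw [mul_zero]

theorem tr_e (i : I) : tr (e i : CC I R) = e i := by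
  ext h
  rw [tr_apply]
  unfold e
  rw [E_apply]
  split_ifs with h1
  · rw [h1, B_single_single, ep_zero, one_mul]
  · rw [mul_zero]

theorem tr_sum {ι : Type} (s : Finset ι) (f : ι → CC I R) :
    tr (∑ i ∈ s, f i) = ∑ i ∈ s, tr (f i) := by
  ext h
  rw [tr_apply, CC.sum_apply, CC.sum_apply, Finset.mul_sum]
  rfl

theorem cmap_tr (f : R →+* S) (x : CC I R) : cmap f (tr x) = tr (cmap f x) := by
  ext h
  rw [cmap_apply, tr_apply, tr_apply, map_mul, ep_map, cmap_apply]

end rev

end Pool.Agent.K7.H53.DB
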