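import Pool.Agent.K7.H53.DB.CC

/-!
# The double cover of the alternating group: definition
-/

set_option autoImplicit false
set_option linter.unusedSectionVars false

open Finset Equiv

namespace Pool.Agent.K7.H53.DB

section lift

variable {I F : Type} [Fintype I] [DecidableEq I] [Field F]

/-- `w e_i = e_(π i) w` for all `i` -/
def IsLift (w : CC I F) (π : Perm I) : Prop := ∀ i, w * e i = e (π i) * w

theorem IsLift.mul {w v : CC I F} {π σ : Perm I} (hw : IsLift w π) (hv : IsLift v σ) :
    IsLift (w * v) (π * σ) := by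
  intro i
  rw [mul_assoc, hv, ← mul_assoc, hw, mul_assoc]
  rfl

theorem IsLift.one : IsLift (1 : CC I F) 1 := by
  intro i
  rw [one_mul, mul_one]
  rfl

theorem IsLift.smul {w : CC I F} {π : Perm I} (hw : IsLift w π) (c : F) : IsLift (c • w) π := by
  intro i
  rw [smul_mul_assoc, hw, mul_smul_comm]

theorem IsLift.neg {w : CC I F} {π : Perm I} (hw : IsLift w π) : IsLift (-w) π := by
  intro i
  rw [neg_mul, hw, mul_neg]

theorem IsLift.inv {w : (CC I F)ˣ} {π : Perm I} (h : IsLift (w : CC I F) π) :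
    IsLift ((w⁻¹ : (CC I F)ˣ) : CC I F) π⁻¹ := by
  intro i
  have h1 := h (π⁻¹ i)
  have h2 : π (π⁻¹ i) = i := π.apply_symm_apply i
  rw [h2] at h1
  calc (↑w⁻¹ : CC I F) * e i = ↑w⁻¹ * (e i * (w : CC I F)) * ↑w⁻¹ := by
        rw [mul_assoc, mul_assoc, Units.mul_inv, mul_one]
    _ = ↑w⁻¹ * ((w : CC I F) * e (π⁻¹ i)) * ↑w⁻¹ := by rw [h1]
    _ = _ := by rw [← mul_assoc, Units.inv_mul, one_mul]

theorem e_inj : Function.Injective (e : I → CC I F) := by
  intro i j h
  have h1 := congrFun h (Pi.single i (1 : ZMod 2) : I → ZMod 2)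
  change (if (Pi.single i 1 : I → ZMod 2) = Pi.single i 1 then (1 : F) else 0) =
    (if (Pi.single i 1 : I → ZMod 2) = Pi.single j 1 then (1 : F) else 0) at h1
  rw [if_pos rfl] at h1
  split_ifs at h1 with h2
  · have h3 := congrFun h2 i
    rw [Pi.single_eq_same, Pi.single_apply] at h3
    split_ifs at h3 with h4
    · exact h4
    · exact absurd h3 one_ne_zero
  · exact absurd h1 one_ne_zero

theorem IsLift.unique {w : (CC I F)ˣ} {π σ : Perm I} (h : IsLift (w : CC I F) π)
    (h' : IsLift (w : CC I F) σ) : π = σ := by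
  ext i
  apply e_inj (F := F)
  have h1 := (h i).symm.trans (h' i)
  calc (e (π i) : CC I F) = (e (π i) * (w : CC I F)) * (↑w⁻¹ : CC I F) := by
        rw [mul_assoc, Units.mul_inv, mul_one]
    _ = (e (σ i) * (w : CC I F)) * (↑w⁻¹ : CC I F) := by rw [h1]
    _ = e (σ i) := by rw [mul_assoc, Units.mul_inv, mul_one]

theorem inv_of_tr {w : (CC I F)ˣ} (h : tr (w : CC I F) * (w : CC I F) = 1) :
    ((w⁻¹ : (CC I F)ˣ) : CC I F) = tr (w : CC I F) := by
  calc (↑w⁻¹ : CC I F) = (tr (w : CC I F) * (w : CC I F)) * (↑w⁻¹ : CC I F) := by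
        rw [h, one_mul]
    _ = _ := by rw [mul_assoc, Units.mul_inv, mul_one]

end lift

/-- An index set with an odd number of elements: `n` elements, and one more if `n` is even. -/
abbrev JJ (n : ℕ) : Type := Fin n ⊕ Fin ((n + 1) % 2)

/-- An index set with an even number of elements. -/
abbrev II (n : ℕ) : Type := Option (JJ n)

/-- The permutations of `Fin n` as permutations of the index set. -/
def ps (n : ℕ) : Perm (Fin n) →* Perm (JJ n) where
  toFun σ := Equiv.sumCongr σ 1
  map_one' := by
    ext (i | i) : 1 <;> rfl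
  map_mul' σ τ := by
    ext (i | i) : 1 <;> rfl

/-- The permutations of an index set as permutations of the index set with one more element. -/
def po (J : Type) : Perm J →* Perm (Option J) where
  toFun σ := Equiv.optionCongr σ
  map_one' := by
    ext (_ | i) : 1 <;> rfl
  map_mul' σ τ := by
    ext (_ | i) : 1 <;> rfl

/-- The permutations of `Fin n` as permutations of the index set. -/
def ph (n : ℕ) : Perm (Fin n) →* Perm (II n) := (po (JJ n)).comp (ps n)

/-- The double cover of the alternating group: the elements `w` of the algebra with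
`w' w = 1` (`w'` is the reversal of `w`) and `w e_i = e_(π i) w` for an even permutation `π`. -/
def TA (n : ℕ) (F : Type) [Field F] : Subgroup (CC (II n) F)ˣ where
  carrier := {w | tr (w : CC (II n) F) * (w : CC (II n) F) = 1 ∧
    ∃ π ∈ alternatingGroup (Fin n), IsLift (w : CC (II n) F) (ph n π)}
  mul_mem' := by
    rintro w v ⟨h1, π, h2, h3⟩ ⟨h4, σ, h5, h6⟩
    refine ⟨?_, π * σ, mul_mem h2 h5, ?_⟩
    · rw [Units.val_mul, tr_mul, mul_assoc, ← mul_assoc _ (w : CC (II n) F), h1, one_mul, h4]
    · rw [Units.val_mul, map_mul]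
      exact h3.mul h6
  one_mem' := ⟨by rw [Units.val_one, tr_one, one_mul], 1, one_mem _, by
    rw [Units.val_one, map_one]
    exact IsLift.one⟩
  inv_mem' := by
    rintro w ⟨h1, π, h2, h3⟩
    refine ⟨?_, π⁻¹, inv_mem h2, ?_⟩
    · rw [inv_of_tr h1, tr_tr, ← inv_of_tr h1, Units.mul_inv]
    · rw [map_inv]
      exact h3.inv

end Pool.Agent.K7.H53.DB
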