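import Pool.Agent.K7.H53.MA.Root

/-!
# The orthogonal matrix which connects the trace forms of `P` and of `P - T R`
-/

set_option autoImplicit false
set_option linter.unusedSectionVars false
set_option linter.unusedVariables false

open Polynomial Finset

namespace Pool.Agent.K7.H53.DB

open Pool.Agent.K7.H53.MA

variable {J D : Type} [Fintype J] [DecidableEq J] [Field D]

/-- Partial fractions. -/
theorem part_frac [Nonempty J] {ξ : J → D} (hξ : Function.Injective ξ) (F : D[X])
    (hF : F.degree < (Fintype.card J : ℕ)) (y : D) (hy : ∀ i, y ≠ ξ i) :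
    ∑ i, F.eval (ξ i) / ((ξ i - y) * (Pj ξ i).eval (ξ i)) = - (F.eval y / (Pp ξ).eval y) := by
  have h0 : (Pp ξ).eval y ≠ 0 := by
    rw [eval_Pp]
    exact Finset.prod_ne_zero_iff.2 fun i _ => sub_ne_zero.2 (hy i)
  have h1 : F = Rr ξ fun i => F.eval (ξ i) / (Pj ξ i).eval (ξ i) :=
    interp hξ F hF _ fun j => (div_mul_cancel₀ _ (eval_Pj_self hξ j)).symm
  have h2 : F.eval y = ∑ i, F.eval (ξ i) / (Pj ξ i).eval (ξ i) * (Pj ξ i).eval y := by
    conv_lhs => rw [h1]
    unfold Rr
    rw [eval_finsetSum]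
    refine sum_congr rfl fun i _ => ?_
    rw [eval_mul, eval_C]
  rw [h2, Finset.sum_div, ← Finset.sum_neg_distrib]
  refine sum_congr rfl fun i _ => ?_
  have h3 : (Pp ξ).eval y = (y - ξ i) * (Pj ξ i).eval y := by
    rw [Pp_eq ξ i, eval_mul, eval_sub, eval_X, eval_C]
  have h4 : y - ξ i ≠ 0 := sub_ne_zero.2 (hy i)
  have h5 : ξ i - y ≠ 0 := sub_ne_zero.2 (hy i).symm
  have h6 := eval_Pj_self hξ i
  have h7 : (Pj ξ i).eval y ≠ 0 := by
    intro h
    rw [h3, h, mul_zero] at h0
    exact h0 rfl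
  rw [h3]
  have h8 : ξ i - y = -(y - ξ i) := by ring
  rw [h8]
  field_simp

/-- the matrix (it does not depend on `i0`) -/
noncomputable def Am (x ξ : J → D) (i0 : J) : Matrix J J D := fun i j =>
  (Mm x).adjugate j i0 * (Pj x j).eval (ξ i) /
    (Rr x fun j => (Mm x).adjugate j i0).eval (ξ i)

theorem Am_indep (hodd : Odd (Fintype.card J)) {x : J → D} (hg : Gd x) (hdet : (Mm x).det = 0)
    (ξ : J → D) (i0 i1 : J) : Am x ξ i1 = Am x ξ i0 := by
  let l : D := (Mm x).adjugate i1 i0 / (Mm x).adjugate i0 i0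
  have hl0 : l ≠ 0 := div_ne_zero (col_ne hodd hg hdet i1 i0) (hg i0)
  have hl : ∀ j, (Mm x).adjugate j i1 = l * (Mm x).adjugate j i0 := by
    intro j
    have h := rank_one hodd (hg i0) hdet j i1
    change _ = (Mm x).adjugate i1 i0 / (Mm x).adjugate i0 i0 * (Mm x).adjugate j i0
    have h3 := hg i0
    field_simp
    linear_combination h
  ext i j
  unfold Am
  simp only [hl]
  rw [Rr_smul, eval_mul, eval_C, mul_assoc, mul_div_mul_left _ _ hl0]

/-- **The matrix is orthogonal.** -/
theorem Am_orth (hodd : Odd (Fintype.card J)) {x ξ : J → D} {T : D} (hT : T ≠ 0)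
    (hx : Function.Injective x) (hξ : Function.Injective ξ) (hg : Gd x)
    (hdet : (Mm x).det = 0) (hf : Pp ξ = Pp x - C T * rs x) (i0 : J) :
    (Am x ξ i0).transpose * Am x ξ i0 = 1 := by
  have hne : Nonempty J := ⟨i0⟩
  have hRne := rs_eval_ne hx hg hf
  have hP : ∀ i, (Pp x).eval (ξ i) = T * (rs x).eval (ξ i) := by
    intro i
    have h := congrArg (eval (ξ i)) hf
    rw [eval_sub, eval_mul, eval_C] at h
    have h0 : (Pp ξ).eval (ξ i) = 0 := by
      rw [eval_Pp]
      exact Finset.prod_eq_zero (mem_univ i) (sub_self _)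
    rw [h0] at h
    linear_combination -h
  have hfx : ∀ j, (Pp ξ).eval (x j) = -(T * (rs x).eval (x j)) := by
    intro j
    rw [hf, eval_sub, eval_mul, eval_C]
    have h0 : (Pp x).eval (x j) = 0 := by
      rw [eval_Pp]
      exact Finset.prod_eq_zero (mem_univ j) (sub_self _)
    rw [h0, zero_sub]
  have hRx : ∀ j, (rs x).eval (x j) ≠ 0 := by
    intro j
    rw [rs_eval_x]
    exact mul_ne_zero (hg j) (eval_Pj_self hx j)
  have hxξ : ∀ i k, x k ≠ ξ i := by
    intro i k h
    have h1 := hP i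
    rw [← h] at h1
    have h0 : (Pp x).eval (x k) = 0 := by
      rw [eval_Pp]
      exact Finset.prod_eq_zero (mem_univ k) (sub_self _)
    rw [h0] at h1
    exact mul_ne_zero hT (hRx k) h1.symm
  have hPk : ∀ i k, (Pj x k).eval (ξ i) = T * (rs x).eval (ξ i) / (ξ i - x k) := by
    intro i k
    rw [eq_div_iff (sub_ne_zero.2 (hxξ i k).symm), ← hP, Pp_eq x k, eval_mul, eval_sub, eval_X,
      eval_C, mul_comm]
  ext j k
  rw [Matrix.mul_apply]
  have h1 : ∀ i, (Am x ξ i0).transpose j i * Am x ξ i0 i k =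
      ((Mm x).adjugate j k * T) * ((Pj x j).eval (ξ i) /
        ((ξ i - x k) * (Pj ξ i).eval (ξ i))) := by
    intro i
    rw [Matrix.transpose_apply]
    unfold Am
    rw [div_mul_div_comm, ← pow_two, sq_eval hodd hx hg hdet hf i0 i, hPk i k]
    have h3 := rank_one hodd (hg i0) hdet j k
    have h4 := hg i0
    have h5 := hRne i
    have h6 := eval_Pj_self hξ i
    have h7 : ξ i - x k ≠ 0 := sub_ne_zero.2 (hxξ i k).symm
    have h8 : (Mm x).adjugate j k = (Mm x).adjugate j i0 * (Mm x).adjugate k i0 /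
        (Mm x).adjugate i0 i0 := by
      rw [eq_div_iff h4, ← h3]
      ring
    rw [h8]
    field_simp
  rw [sum_congr rfl fun i _ => h1 i, ← Finset.mul_sum,
    part_frac hξ (Pj x j) (degree_Pj_lt x j) (x k) fun i => hxξ i k, hfx]
  by_cases h : j = k
  · subst h
    rw [Matrix.one_apply_eq]
    have h2 := hRx j
    have h3 := rs_eval_x x j
    have h4 := eval_Pj_self hx j
    have h5 := hg j
    rw [h3]
    field_simp
  · rw [Matrix.one_apply_ne h, eval_Pj_ne x (Ne.symm h), zero_div, neg_zero, mul_zero]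

/-- Equivariance. -/
theorem Am_map (hodd : Odd (Fintype.card J)) {x ξ : J → D} (hg : Gd x) (hdet : (Mm x).det = 0)
    (σ : D →+* D) (a b : Equiv.Perm J) (ha : ∀ i, σ (x i) = x (a i))
    (hb : ∀ i, σ (ξ i) = ξ (b i)) (i0 i j : J) :
    σ (Am x ξ i0 i j) = Am x ξ i0 (b i) (a j) := by
  have hev : ∀ (F : D[X]) (y : D), σ (F.eval y) = (F.map σ).eval (σ y) := by
    intro F y
    rw [eval_map, eval₂_at_apply]
  have hadj : ∀ j, σ ((Mm x).adjugate j i0) = (Mm x).adjugate (a j) (a i0) := by
    intro j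
    rw [map_adj]
    simp only [ha]
    exact adj_perm x a j i0
  have h1 : (Pj x j).map σ = Pj x (a j) := by
    rw [map_Pj]
    simp only [ha]
    exact Pj_perm x a j
  have h2 : (Rr x fun j => (Mm x).adjugate j i0).map σ =
      Rr x fun j => (Mm x).adjugate j (a i0) := by
    rw [map_Rr]
    simp only [ha, hadj]
    exact Rr_perm x (fun j => (Mm x).adjugate j (a i0)) a
  have h3 : Am x ξ i0 (b i) (a j) = Am x ξ (a i0) (b i) (a j) := by
    rw [Am_indep hodd hg hdet ξ i0 (a i0)]
  rw [h3]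
  change σ ((Mm x).adjugate j i0 * (Pj x j).eval (ξ i) /
    (Rr x fun j => (Mm x).adjugate j i0).eval (ξ i)) = _
  rw [map_div₀, map_mul, hev, hev, h1, h2, hadj, hb]
  rfl

/-- One more row and column. -/
def Ao (A : Matrix J J D) : Matrix (Option J) (Option J) D := fun i j =>
  match i, j with
  | none, none => 1
  | none, some _ => 0
  | some _, none => 0
  | some i, some j => A i j

theorem Ao_orth {A : Matrix J J D} (h : A.transpose * A = 1) :
    (Ao A).transpose * Ao A = 1 := by
  ext j k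
  rw [Matrix.mul_apply, Fintype.sum_option]
  simp only [Matrix.transpose_apply]
  rcases j with _ | j <;> rcases k with _ | k
  · rw [Matrix.one_apply_eq]
    simp [Ao]
  · rw [Matrix.one_apply_ne (by simp)]
    simp [Ao]
  · rw [Matrix.one_apply_ne (by simp)]
    simp [Ao]
  · have h1 := congrFun (congrFun h j) k
    rw [Matrix.mul_apply] at h1
    simp only [Ao, mul_zero, zero_add]
    simp only [Matrix.transpose_apply] at h1
    rw [h1, Matrix.one_apply, Matrix.one_apply]
    simp

end Pool.Agent.K7.H53.DB
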