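import Pool.Agent.K7.H53.MA.Loc
import Pool.Agent.K7.H53.DB.Orth

/-!
# The roots and the orthogonal matrix
-/

set_option autoImplicit false
set_option linter.unusedSectionVars false
set_option linter.unusedVariables false

open scoped IntermediateField.algebraAdjoinAdjoin
open Polynomial Finset IntermediateField Equiv

namespace Pool.Agent.K7.H53.DB

open Pool.Agent.K7.H53.MA
open Pool.Agent.H391R2.T4 (RegSol)
open Pool.Agent.Y60.DC (tb_of_alg tb_alg exists_iso tb_up speiser exists_univ)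

theorem setup2 (K L J : Type) [Field K] [Field L] [Algebra K L] [FiniteDimensional K L]
    [IsGalois K L] [Fintype J] [DecidableEq J] (hodd : Odd (Fintype.card J))
    (h5 : 5 ≤ Fintype.card J) (β' : (L ≃ₐ[K] L) →* Perm J)
    (U : Type) [Field U] [IsAlgClosed U] [Algebra K U] [Algebra L U] [IsScalarTower K L U]
    (u : Option J → U) (hu : IsTranscendenceBasis K u) (hN : Nice J U) :
    ∃ (ξ : J → U) (A : Matrix J J U), A.transpose * A = 1 ∧ Function.Injective ξ ∧
      (∀ (σ : U ≃ₐ[K] U) (γ : L ≃ₐ[K] L), (∀ l, σ (algebraMap L U l) = algebraMap L U (γ l)) →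
        (∀ i, σ (u (some i)) = u (some i)) → ∀ i0, σ (ξ i0) = ξ i0 → σ (u none) = u none) ∧
      (∀ (σ : U ≃ₐ[K] U) (γ : L ≃ₐ[K] L), (∀ l, σ (algebraMap L U l) = algebraMap L U (γ l)) →
        (∀ i, σ (u (some i)) = u (some i)) → σ (u none) = u none →
        ∃ b : Perm J, (∀ i, σ (ξ i) = ξ (b i)) ∧ Perm.sign b = Perm.sign (β' γ) ∧
          ∀ i j, σ (A i j) = A (b i) (β' γ j)) ∧
      (∀ b ∈ alternatingGroup J, ∃ σ : U ≃ₐ[K] U, (∀ z, IsAlgebraic K z → σ z = z) ∧
        (∀ o, σ (u o) = u o) ∧ (∀ i, σ (ξ i) = ξ (b i)) ∧ ∀ i j, σ (A i j) = A (b i) j) ∧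
      ∀ i0, IsTranscendenceBasis K (zz (fun j => u (some j)) (ξ i0)) := by
  obtain ⟨w, w', hw, hγw⟩ := exists_w K L J β'
  have hne : Nonempty J := Fintype.card_pos_iff.1 hodd.pos
  let x : J → U := fun j => ∑ i, u (some i) * algebraMap L U (w i j)
  have hux : ∀ m, u (some m) = ∑ j, x j * algebraMap L U (w' j m) := by
    intro m
    have h1 : ∑ j, x j * algebraMap L U (w' j m) =
        ∑ i, u (some i) * algebraMap L U ((w * w') i m) := by
      simp only [x, Finset.sum_mul]
      rw [Finset.sum_comm]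
      refine Finset.sum_congr rfl fun i _ => ?_
      rw [Matrix.mul_apply, map_sum, Finset.mul_sum]
      refine Finset.sum_congr rfl fun j _ => ?_
      rw [map_mul, mul_assoc]
    rw [h1, hw]
    simp only [Matrix.one_apply]
    rw [Finset.sum_eq_single m]
    · simp
    · intro i _ hi
      rw [if_neg hi, map_zero, mul_zero]
    · intro h
      exact absurd (Finset.mem_univ m) h
  let A := algebraicClosure K U
  have hLA : ∀ l, algebraMap L U l ∈ A := fun l =>
    mem_algebraicClosure_iff.2 (Algebra.IsAlgebraic.isAlgebraic (R := K) l).algebraMap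
  have hAu : IsTranscendenceBasis A u := tb_up hu
  let z : Option J → U := zz x (u none)
  have hz : IsTranscendenceBasis A z := by
    refine tb_of_alg hAu _ fun o => alg_mem _ _ ?_
    rcases o with _ | m
    · exact subset_adjoin A _ ⟨none, rfl⟩
    · rw [hux m]
      refine sum_mem fun j _ => mul_mem (subset_adjoin A _ ⟨some j, rfl⟩) ?_
      exact IntermediateField.algebraMap_mem (adjoin A (Set.range z)) (⟨_, hLA (w' j m)⟩ : A)
  obtain ⟨hm, hd⟩ := natDegree_f x (u none)
  obtain ⟨ξ, hξ⟩ := exists_roots _ hm hd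
  have hf : Pp ξ = Pp (fun j => z (some j)) - C (z none) * rs fun j => z (some j) := hξ
  have hxi : AlgebraicIndependent A fun j => z (some j) :=
    hz.1.comp some (Option.some_injective _)
  have hxinj : Function.Injective x := hxi.injective
  have hg : Gd x := gd_of_indep hodd _ hxi
  have hξinj : Function.Injective ξ := (xi_indep hz hf).injective
  have hT : ∀ i, u none = (Pp x).eval (ξ i) / (rs x).eval (ξ i) := by
    intro i
    have h1 := rs_eval_ne hxinj hg hξ i
    rw [eq_div_iff h1]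
    have h3 := congrArg (eval (ξ i)) hξ
    rw [eval_sub, eval_mul, eval_C] at h3
    have h0 : (Pp ξ).eval (ξ i) = 0 := by
      rw [eval_Pp]
      exact Finset.prod_eq_zero (Finset.mem_univ i) (sub_self _)
    rw [h0] at h3
    linear_combination h3
  have hσx : ∀ (σ : U ≃ₐ[K] U) (γ : L ≃ₐ[K] L),
      (∀ l, σ (algebraMap L U l) = algebraMap L U (γ l)) →
      (∀ i, σ (u (some i)) = u (some i)) → ∀ j, σ (x j) = x (β' γ j) := by
    intro σ γ h1 h2 j
    simp only [x]
    rw [map_sum]
    refine Finset.sum_congr rfl fun i _ => ?_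
    rw [map_mul, h1, h2, hγw]
  have hmap : ∀ (σ : U ≃ₐ[K] U) (a : Perm J), (∀ j, σ (x j) = x (a j)) →
      (Pp x).map (σ : U →+* U) = Pp x ∧ (rs x).map (σ : U →+* U) = rs x := by
    intro σ a h
    have h1 : (fun j => (σ : U →+* U) (x j)) = fun j => x (a j) := funext h
    constructor
    · rw [map_Pp, h1, Pp_perm]
    · rw [rs_map, h1]
      exact rs_perm x a
  have hev : ∀ (σ : U ≃ₐ[K] U) (F : U[X]) (y : U), F.map (σ : U →+* U) = F →
      σ (F.eval y) = F.eval (σ y) := by
    intro σ F y hF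
    have h6 : (F.map (σ : U →+* U)).eval (σ y) = σ (F.eval y) := by
      rw [eval_map]
      exact eval₂_at_apply _ _
    rw [hF] at h6
    exact h6.symm
  have hT0 : u none ≠ 0 := hu.1.ne_zero none
  have hdet := hN.det x hxinj
  obtain ⟨i0⟩ := id hne
  refine ⟨ξ, Am x ξ i0, Am_orth hodd hT0 hxinj hξinj hg hdet hξ i0, hξinj, ?_, ?_, ?_, ?_⟩
  · intro σ γ h1 h2 i0 h3
    obtain ⟨h4, h6⟩ := hmap σ _ (hσx σ γ h1 h2)
    rw [hT i0, map_div₀, hev σ _ _ h4, hev σ _ _ h6, h3]
  · intro σ γ h1 h2 h3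
    obtain ⟨h4, h6⟩ := hmap σ _ (hσx σ γ h1 h2)
    have h7 : (Pp ξ).map (σ : U →+* U) = Pp ξ := by
      rw [hξ, Polynomial.map_sub, Polynomial.map_mul, map_C, h4, h6]
      congr 3
    obtain ⟨b, hb⟩ := map_fix_of_Pp hξinj _ h7
    refine ⟨b, hb, ?_, fun i j =>
      Am_map hodd hg hdet (σ : U →+* U) (β' γ) b (hσx σ γ h1 h2) hb i0 i j⟩
    have h8 : u none ≠ 0 := hu.1.ne_zero none
    exact (hN.sgn x ξ (u none) h8 hxinj hξinj hg hξ (σ : U ≃+* U) (β' γ) b h3
      (hσx σ γ h1 h2) hb).symm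
  · intro b hb
    obtain ⟨σ, h1, h2, h3⟩ := alt_le hodd h5 hN hz hf hb
    refine ⟨σ.restrictScalars K, fun y hy => σ.commutes (⟨y, mem_algebraicClosure_iff.2 hy⟩ : A),
      fun o => ?_, h3, fun i j =>
        Am_map hodd hg hdet (σ : U →+* U) 1 b (fun j => h1 j) h3 i0 i j⟩
    rcases o with _ | m
    · exact h2
    · change σ (u (some m)) = u (some m)
      rw [hux m, map_sum]
      refine Finset.sum_congr rfl fun j _ => ?_
      rw [map_mul]
      have h4 : σ (algebraMap L U (w' j m)) = algebraMap L U (w' j m) :=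
        σ.commutes (⟨_, hLA (w' j m)⟩ : A)
      rw [h4]
      congr 1
      exact h1 j
  · intro i0
    let E := adjoin K (Set.range (zz (fun j => u (some j)) (ξ i0)))
    have huE : ∀ j, u (some j) ∈ E := fun j => subset_adjoin K _ ⟨some j, rfl⟩
    have hξE : ξ i0 ∈ E := subset_adjoin K _ ⟨none, rfl⟩
    let B := algebraicClosure E U
    have hEB : ∀ y ∈ E, y ∈ B := fun y hy => B.algebraMap_mem (⟨y, hy⟩ : E)
    have hLB : ∀ l, algebraMap L U l ∈ B := fun l => by
      have h1 : IsAlgebraic K (algebraMap L U l) :=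
        (Algebra.IsAlgebraic.isAlgebraic (R := K) l).algebraMap
      exact mem_algebraicClosure_iff.2 (h1.tower_top E)
    have hxB : ∀ j, x j ∈ B := fun j =>
      sum_mem fun i _ => mul_mem (hEB _ (huE i)) (hLB _)
    have hevB : ∀ F : U[X], (∀ n, F.coeff n ∈ B) → F.eval (ξ i0) ∈ B := by
      intro F hF
      rw [eval_eq_sum_range]
      exact sum_mem fun n _ => mul_mem (hF n) (pow_mem (hEB _ hξE) n)
    refine tb_of_alg hu _ fun o => ?_
    rcases o with _ | j
    · have h1 : u none ∈ B := by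
        rw [hT i0]
        exact div_mem (hevB _ (coeff_Pp_mem B _ hxB)) (hevB _ (coeff_rs_mem B _ hxB))
      exact mem_algebraicClosure_iff.1 h1
    · exact alg_mem _ _ (huE j)

end Pool.Agent.K7.H53.DB
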